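import Mathlib

set_option autoImplicit false
open scoped ContDiff
open MeasureTheory

namespace Pool.Agent.Lib.MP_7ebee3_an

/-- The operator `∂/∂z̄_j = (∂/∂x_j + i ∂/∂y_j)/2` on functions on `ℂⁿ = (Fin n → ℂ)`. -/
noncomputable def dzbar {n : ℕ} (j : Fin n) (φ : (Fin n → ℂ) → ℂ) (x : Fin n → ℂ) : ℂ :=
  (fderiv ℝ φ x (Pi.single j 1) + Complex.I * fderiv ℝ φ x (Pi.single j Complex.I)) / 2

/-- `∂̄u = f` on `Ω` in the sense of distributions, for the `(0,1)`-form `f = ∑ f_j dz̄_j`: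
for every `j` and every test function `φ ∈ C_c^∞(Ω)`, `∫_Ω u ∂φ/∂z̄_j = - ∫_Ω f_j φ`. -/
def WeakDbar {n : ℕ} (Ω : Set (Fin n → ℂ)) (u : (Fin n → ℂ) → ℂ)
    (f : Fin n → (Fin n → ℂ) → ℂ) : Prop :=
  ∀ (j : Fin n) (φ : (Fin n → ℂ) → ℂ), ContDiff ℝ ∞ φ → HasCompactSupport φ → tsupport φ ⊆ Ω →
    ∫ x in Ω, u x * dzbar j φ x = - ∫ x in Ω, f j x * φ x

/-- The norm of `u` in the Hölder space `Λ^γ(K)`, `0 < γ < 1`, is at most `C`: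
`|u| ≤ C` on `K` and `|u(x) - u(y)| ≤ C |x - y|^γ` on `K`. -/
def HolderLe {n : ℕ} (γ : ℝ) (K : Set (Fin n → ℂ)) (u : (Fin n → ℂ) → ℂ) (C : ℝ) : Prop :=
  (∀ x ∈ K, ‖u x‖ ≤ C) ∧ ∀ x ∈ K, ∀ y ∈ K, ‖u x - u y‖ ≤ C * ‖x - y‖ ^ γ

/-- membership in `Λ^γ(K)`, `0 < γ < 1` -/
def MemHolder {n : ℕ} (γ : ℝ) (K : Set (Fin n → ℂ)) (u : (Fin n → ℂ) → ℂ) : Prop :=
  ∃ C : ℝ, HolderLe γ K u C

/-- The range of `∂̄ : Λ^α(Ω̄) → Λ^β_{(0,1)}(Ω̄)` with domain `{u ∈ Λ^α(Ω̄) : ∂̄u ∈ Λ^β_{(0,1)}(Ω̄)}`. -/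
def DbarRange {n : ℕ} (α β : ℝ) (Ω : Set (Fin n → ℂ)) (f : Fin n → (Fin n → ℂ) → ℂ) : Prop :=
  (∀ j, MemHolder β (closure Ω) (f j)) ∧ ∃ u, MemHolder α (closure Ω) u ∧ WeakDbar Ω u f

/-- The range of `∂̄ : Λ^α(Ω̄) → Λ^β_{(0,1)}(Ω̄)` is closed in `Λ^β_{(0,1)}(Ω̄)`:
it contains every `f ∈ Λ^β_{(0,1)}(Ω̄)` that it approximates arbitrarily well. -/
def DbarClosedRange {n : ℕ} (α β : ℝ) (Ω : Set (Fin n → ℂ)) : Prop :=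
  ∀ f : Fin n → (Fin n → ℂ) → ℂ, (∀ j, MemHolder β (closure Ω) (f j)) →
    (∀ ε : ℝ, 0 < ε → ∃ g, DbarRange α β Ω g ∧ ∀ j, HolderLe β (closure Ω) (f j - g j) ε) →
    DbarRange α β Ω f

/-- `Ω` has `C^∞` boundary: it is `{ρ < 0}` for a `C^∞` function `ρ` on `ℂⁿ` with `dρ ≠ 0`
on `{ρ = 0}`. -/
def SmoothBoundary {n : ℕ} (Ω : Set (Fin n → ℂ)) : Prop :=
  ∃ ρ : (Fin n → ℂ) → ℝ, ContDiff ℝ ∞ ρ ∧ Ω = {x | ρ x < 0} ∧ ∀ x, ρ x = 0 → fderiv ℝ ρ x ≠ 0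

/-- `Ω` is pseudoconvex: it has a continuous plurisubharmonic exhaustion function `g`, that is,
`g` satisfies the sub-mean value inequality on every closed complex disc
`{p + ζ a : |ζ| ≤ 1}` in `Ω`, and its sublevel sets are compact. -/
def Pseudoconvex {n : ℕ} (Ω : Set (Fin n → ℂ)) : Prop :=
  ∃ g : (Fin n → ℂ) → ℝ, ContinuousOn g Ω ∧
    (∀ p a : Fin n → ℂ, (∀ ζ : ℂ, ‖ζ‖ ≤ 1 → p + ζ • a ∈ Ω) →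
      g p ≤ Real.circleAverage (fun ζ : ℂ => g (p + ζ • a)) 0 1) ∧
    ∀ c : ℝ, IsCompact {x | x ∈ Ω ∧ g x ≤ c}

end Pool.Agent.Lib.MP_7ebee3_an
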