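import Pool.Agent.Lib.MP_7ebee3_an.Defs

set_option autoImplicit false
open scoped ContDiff Topology
open MeasureTheory Metric Set

namespace Pool.Agent.Lib.MP_7ebee3_an

/-- `S(x) = |x₃|² + |x₀²(x₁⁶ - x₂)|² + |x₂²|² + |x₀¹²|² + |x₁³⁶|²` on `ℂ⁴` -/
noncomputable def S (x : Fin 4 → ℂ) : ℝ :=
  ‖x 3‖ ^ 2 + ‖x 0 ^ 2 * (x 1 ^ 6 - x 2)‖ ^ 2 + ‖x 2 ^ 2‖ ^ 2 + ‖x 0 ^ 12‖ ^ 2 + ‖x 1 ^ 36‖ ^ 2

/-- The domain `{S < 1}` in `ℂ⁴`. -/
def Dom : Set (Fin 4 → ℂ) := {x | S x < 1}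

lemma S_smooth : ContDiff ℝ ∞ S := by
  unfold S
  have h3 : ContDiff ℝ ∞ (fun x : Fin 4 → ℂ => x 3) := by fun_prop
  have h1 : ContDiff ℝ ∞ (fun x : Fin 4 → ℂ => x 0 ^ 2 * (x 1 ^ 6 - x 2)) := by fun_prop
  have h2 : ContDiff ℝ ∞ (fun x : Fin 4 → ℂ => x 2 ^ 2) := by fun_prop
  have h4 : ContDiff ℝ ∞ (fun x : Fin 4 → ℂ => x 0 ^ 12) := by fun_prop
  have h5 : ContDiff ℝ ∞ (fun x : Fin 4 → ℂ => x 1 ^ 36) := by fun_prop
  exact ((((h3.norm_sq ℝ).add (h1.norm_sq ℝ)).add (h2.norm_sq ℝ)).add (h4.norm_sq ℝ)).add (h5.norm_sq ℝ)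

lemma S_cont : Continuous S := S_smooth.continuous

lemma Dom_open : IsOpen Dom := isOpen_lt S_cont continuous_const

/-- scaling -/
noncomputable def scal (t : ℝ) (x : Fin 4 → ℂ) : Fin 4 → ℂ := ![t * x 0, t * x 1, t ^ 6 * x 2, t * x 3]

lemma S_scal (t : ℝ) (x : Fin 4 → ℂ) : S (scal t x) =
    t ^ 2 * ‖x 3‖ ^ 2 + t ^ 16 * ‖x 0 ^ 2 * (x 1 ^ 6 - x 2)‖ ^ 2 + t ^ 24 * ‖x 2 ^ 2‖ ^ 2
      + t ^ 24 * ‖x 0 ^ 12‖ ^ 2 + t ^ 72 * ‖x 1 ^ 36‖ ^ 2 := by
  unfold S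
  have e0 : scal t x 0 = t * x 0 := rfl
  have e1 : scal t x 1 = t * x 1 := rfl
  have e2 : scal t x 2 = t ^ 6 * x 2 := rfl
  have e3 : scal t x 3 = t * x 3 := rfl
  rw [e0, e1, e2, e3]
  have f1 : ((t:ℂ) * x 0) ^ 2 * (((t:ℂ) * x 1) ^ 6 - (t:ℂ) ^ 6 * x 2) = (t:ℂ) ^ 8 * (x 0 ^ 2 * (x 1 ^ 6 - x 2)) := by
    ring
  rw [f1]
  simp only [norm_mul, norm_pow, Complex.norm_real, Real.norm_eq_abs, mul_pow, ← pow_mul]
  have a2 : |t| ^ 2 = t ^ 2 := sq_abs t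
  have a16 : |t| ^ (8 * 2) = t ^ 16 := by
    rw [show 8 * 2 = 2 * 8 by norm_num, pow_mul, a2, ← pow_mul]
  have a24 : |t| ^ (12 * 2) = t ^ 24 := by
    rw [show 12 * 2 = 2 * 12 by norm_num, pow_mul, a2, ← pow_mul]
  have a72 : |t| ^ (36 * 2) = t ^ 72 := by
    rw [show 36 * 2 = 2 * 36 by norm_num, pow_mul, a2, ← pow_mul]
  rw [a2, a16, a24, a72]

lemma scal_one (x : Fin 4 → ℂ) : scal 1 x = x := by
  ext i; fin_cases i <;> simp [scal]

lemma scal_zero (x : Fin 4 → ℂ) : scal 0 x = 0 := by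
  ext i; fin_cases i <;> simp [scal]

lemma S_scal_le {t : ℝ} (h0 : 0 ≤ t) (h1 : t ≤ 1) (x : Fin 4 → ℂ) : S (scal t x) ≤ S x := by
  rw [S_scal]
  unfold S
  have p : ∀ k : ℕ, t ^ k ≤ 1 := fun k => pow_le_one₀ h0 h1
  have q : ∀ (k : ℕ) (a : ℝ), 0 ≤ a → t ^ k * a ≤ a := fun k a ha => mul_le_of_le_one_left ha (p k)
  have := q 2 _ (sq_nonneg ‖x 3‖)
  have := q 16 _ (sq_nonneg ‖x 0 ^ 2 * (x 1 ^ 6 - x 2)‖)
  have := q 24 _ (sq_nonneg ‖x 2 ^ 2‖)
  have := q 24 _ (sq_nonneg ‖x 0 ^ 12‖)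
  have := q 72 _ (sq_nonneg ‖x 1 ^ 36‖)
  linarith

lemma continuous_scal (x : Fin 4 → ℂ) : Continuous (fun t : ℝ => scal t x) := by
  apply continuous_pi
  intro i
  fin_cases i
  · show Continuous (fun t : ℝ => (t:ℂ) * x 0); fun_prop
  · show Continuous (fun t : ℝ => (t:ℂ) * x 1); fun_prop
  · show Continuous (fun t : ℝ => (t:ℂ) ^ 6 * x 2); fun_prop
  · show Continuous (fun t : ℝ => (t:ℂ) * x 3); fun_prop

lemma zero_mem_Dom : (0 : Fin 4 → ℂ) ∈ Dom := by simp [Dom, S]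

lemma Dom_connected : IsConnected Dom := by
  apply IsPathConnected.isConnected
  refine ⟨0, zero_mem_Dom, fun {x} hx => ?_⟩
  apply JoinedIn.ofLine (f := fun t => scal t x)
  · exact (continuous_scal x).continuousOn
  · exact scal_zero x
  · exact scal_one x
  · rintro y ⟨t, ⟨ht0, ht1⟩, rfl⟩
    exact (S_scal_le ht0 ht1 x).trans_lt hx

lemma norm_le_one_of_pow {r : ℝ} {k : ℕ} (hk : k ≠ 0) (h : r ^ k ≤ 1) : r ≤ 1 := by
  by_contra hcon
  push Not at hcon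
  have := one_lt_pow₀ hcon hk
  linarith

lemma coord_le_of_S_le {x : Fin 4 → ℂ} (hx : S x ≤ 1) (i : Fin 4) : ‖x i‖ ≤ 1 := by
  unfold S at hx
  have p1 := sq_nonneg ‖x 3‖
  have p2 := sq_nonneg ‖x 0 ^ 2 * (x 1 ^ 6 - x 2)‖
  have p3 := sq_nonneg ‖x 2 ^ 2‖
  have p4 := sq_nonneg ‖x 0 ^ 12‖
  have p5 := sq_nonneg ‖x 1 ^ 36‖
  fin_cases i
  · have h : ‖x 0‖ ^ 24 ≤ 1 := by
      have : ‖x 0 ^ 12‖ ^ 2 = ‖x 0‖ ^ 24 := by rw [norm_pow, ← pow_mul]
      rw [← this]; linarith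
    exact norm_le_one_of_pow (by norm_num) h
  · have h : ‖x 1‖ ^ 72 ≤ 1 := by
      have : ‖x 1 ^ 36‖ ^ 2 = ‖x 1‖ ^ 72 := by rw [norm_pow, ← pow_mul]
      rw [← this]; linarith
    exact norm_le_one_of_pow (by norm_num) h
  · have h : ‖x 2‖ ^ 4 ≤ 1 := by
      have : ‖x 2 ^ 2‖ ^ 2 = ‖x 2‖ ^ 4 := by rw [norm_pow, ← pow_mul]
      rw [← this]; linarith
    exact norm_le_one_of_pow (by norm_num) h
  · have h : ‖x 3‖ ^ 2 ≤ 1 := by linarith
    exact norm_le_one_of_pow (by norm_num) h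

lemma norm_le_of_S_le {x : Fin 4 → ℂ} (hx : S x ≤ 1) : ‖x‖ ≤ 1 :=
  (pi_norm_le_iff_of_nonneg zero_le_one).mpr (coord_le_of_S_le hx)

lemma closure_Dom_sub : closure Dom ⊆ {x | S x ≤ 1} :=
  closure_minimal (fun x (hx : S x < 1) => (le_of_lt hx : S x ≤ 1)) (isClosed_le S_cont continuous_const)

lemma Dom_bounded : Bornology.IsBounded Dom := by
  rw [isBounded_iff_forall_norm_le]
  exact ⟨1, fun x hx => norm_le_of_S_le (le_of_lt hx)⟩

lemma Dom_smoothBoundary : SmoothBoundary Dom := by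
  refine ⟨fun x => S x - 1, S_smooth.sub contDiff_const, ?_, ?_⟩
  · ext x; simp [Dom]
  · intro x hx h0
    have hSx : S x = 1 := by linarith
    -- derivative along the scaling curve
    have hγ : HasDerivAt (fun t : ℝ => scal t x) ![x 0, x 1, 6 * x 2, x 3] 1 := by
      rw [hasDerivAt_pi]
      intro i
      have hid : HasDerivAt (fun t : ℝ => (t:ℂ)) 1 1 := by
        simpa using (hasDerivAt_id (1:ℝ)).ofReal_comp
      fin_cases i
      · show HasDerivAt (fun t : ℝ => (t:ℂ) * x 0) (x 0) 1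
        simpa using hid.mul_const (x 0)
      · show HasDerivAt (fun t : ℝ => (t:ℂ) * x 1) (x 1) 1
        simpa using hid.mul_const (x 1)
      · show HasDerivAt (fun t : ℝ => (t:ℂ) ^ 6 * x 2) (6 * x 2) 1
        simpa using (hid.pow 6).mul_const (x 2)
      · show HasDerivAt (fun t : ℝ => (t:ℂ) * x 3) (x 3) 1
        simpa using hid.mul_const (x 3)
    have hS1 : HasFDerivAt (fun x => S x - 1) (0 : (Fin 4 → ℂ) →L[ℝ] ℝ) (scal 1 x) := by
      rw [scal_one, ← h0]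
      exact ((S_smooth.sub contDiff_const).differentiable (by simp) x).hasFDerivAt
    have hcomp : HasDerivAt (fun t : ℝ => S (scal t x) - 1) 0 1 := by
      have h := HasFDerivAt.comp_hasDerivAt (f := fun t : ℝ => scal t x) (1:ℝ) hS1 hγ
      rw [zero_apply] at h
      exact h
    have hexp : HasDerivAt (fun t : ℝ => S (scal t x) - 1)
        (2 * ‖x 3‖ ^ 2 + 16 * ‖x 0 ^ 2 * (x 1 ^ 6 - x 2)‖ ^ 2 + 24 * ‖x 2 ^ 2‖ ^ 2
      + 24 * ‖x 0 ^ 12‖ ^ 2 + 72 * ‖x 1 ^ 36‖ ^ 2) 1 := by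
      have hfun : (fun t : ℝ => S (scal t x) - 1) = (fun t : ℝ => t ^ 2 * ‖x 3‖ ^ 2
        + t ^ 16 * ‖x 0 ^ 2 * (x 1 ^ 6 - x 2)‖ ^ 2 + t ^ 24 * ‖x 2 ^ 2‖ ^ 2
        + t ^ 24 * ‖x 0 ^ 12‖ ^ 2 + t ^ 72 * ‖x 1 ^ 36‖ ^ 2 - 1) := by
        funext t; rw [S_scal]
      rw [hfun]
      have hp : ∀ (k : ℕ) (a : ℝ), HasDerivAt (fun t : ℝ => t ^ k * a) (k * a) 1 := by
        intro k a
        simpa using (hasDerivAt_pow k (1:ℝ)).mul_const a
      have := (((((hp 2 (‖x 3‖ ^ 2)).add (hp 16 (‖x 0 ^ 2 * (x 1 ^ 6 - x 2)‖ ^ 2))).add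
        (hp 24 (‖x 2 ^ 2‖ ^ 2))).add (hp 24 (‖x 0 ^ 12‖ ^ 2))).add (hp 72 (‖x 1 ^ 36‖ ^ 2))).sub_const 1
      exact_mod_cast this
    have huniq := hcomp.unique hexp
    unfold S at hSx
    have p1 := sq_nonneg ‖x 3‖
    have p2 := sq_nonneg ‖x 0 ^ 2 * (x 1 ^ 6 - x 2)‖
    have p3 := sq_nonneg ‖x 2 ^ 2‖
    have p4 := sq_nonneg ‖x 0 ^ 12‖
    have p5 := sq_nonneg ‖x 1 ^ 36‖
    linarith

lemma re_conj_bound (a b : ℂ) : ‖a‖ ^ 2 + 2 * ((starRingEnd ℂ) a * (b - a)).re ≤ ‖b‖ ^ 2 := by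
  have h := Complex.normSq_nonneg (b - a)
  rw [← Complex.normSq_eq_norm_sq, ← Complex.normSq_eq_norm_sq]
  simp only [Complex.normSq_apply, Complex.mul_re, Complex.conj_re, Complex.conj_im, Complex.sub_re,
    Complex.sub_im] at *
  nlinarith

lemma psi_bound {s t : ℝ} (hs : s < 1) (ht : t < 1) :
    (1 - s)⁻¹ + ((1 - s)⁻¹) ^ 2 * (t - s) ≤ (1 - t)⁻¹ := by
  have h1 : 0 < 1 - s := by linarith
  have h2 : 0 < 1 - t := by linarith
  have h3 : (1 - t)⁻¹ - ((1 - s)⁻¹ + ((1 - s)⁻¹) ^ 2 * (t - s)) = (t - s) ^ 2 / ((1 - t) * (1 - s) ^ 2) := by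
    field_simp
    ring
  have h4 : 0 ≤ (t - s) ^ 2 / ((1 - t) * (1 - s) ^ 2) := by positivity
  linarith

/-- holomorphic support function of `S` along a line -/
noncomputable def supp (p a : Fin 4 → ℂ) (z : ℂ) : ℂ :=
  (starRingEnd ℂ) (p 3) * ((p 3 + z * a 3) - p 3)
  + (starRingEnd ℂ) (p 0 ^ 2 * (p 1 ^ 6 - p 2)) *
    ((p 0 + z * a 0) ^ 2 * ((p 1 + z * a 1) ^ 6 - (p 2 + z * a 2)) - p 0 ^ 2 * (p 1 ^ 6 - p 2))
  + (starRingEnd ℂ) (p 2 ^ 2) * ((p 2 + z * a 2) ^ 2 - p 2 ^ 2)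
  + (starRingEnd ℂ) (p 0 ^ 12) * ((p 0 + z * a 0) ^ 12 - p 0 ^ 12)
  + (starRingEnd ℂ) (p 1 ^ 36) * ((p 1 + z * a 1) ^ 36 - p 1 ^ 36)

lemma supp_diff (p a : Fin 4 → ℂ) : Differentiable ℂ (supp p a) := by
  unfold supp; fun_prop

lemma supp_zero (p a : Fin 4 → ℂ) : supp p a 0 = 0 := by
  unfold supp; simp

lemma supp_bound (p a : Fin 4 → ℂ) (z : ℂ) : S p + 2 * (supp p a z).re ≤ S (p + z • a) := by
  unfold S supp
  simp only [Pi.add_apply, Pi.smul_apply, smul_eq_mul, Complex.add_re]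
  have h3 := re_conj_bound (p 3) (p 3 + z * a 3)
  have h1 := re_conj_bound (p 0 ^ 2 * (p 1 ^ 6 - p 2))
    ((p 0 + z * a 0) ^ 2 * ((p 1 + z * a 1) ^ 6 - (p 2 + z * a 2)))
  have h2 := re_conj_bound (p 2 ^ 2) ((p 2 + z * a 2) ^ 2)
  have h4 := re_conj_bound (p 0 ^ 12) ((p 0 + z * a 0) ^ 12)
  have h5 := re_conj_bound (p 1 ^ 36) ((p 1 + z * a 1) ^ 36)
  linarith

lemma Dom_pseudoconvex : Pseudoconvex Dom := by
  refine ⟨fun x => (1 - S x)⁻¹, ?_, ?_, ?_⟩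
  · apply ContinuousOn.inv₀ (continuous_const.sub S_cont).continuousOn
    intro x hx
    have h1 : S x < 1 := hx
    exact (by linarith : (0:ℝ) < 1 - S x).ne'
  · intro p a hdisc
    have hp : S p < 1 := by
      have := hdisc 0 (by simp)
      simpa [Dom] using this
    have hS : ∀ ζ : ℂ, ‖ζ‖ ≤ 1 → S (p + ζ • a) < 1 := hdisc
    have hcontS : Continuous (fun ζ : ℂ => S (p + ζ • a)) := S_cont.comp (by fun_prop)
    have hcontL : Continuous (supp p a) := (supp_diff p a).continuous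
    -- average of the real part of the support function vanishes
    have hav : Real.circleAverage (fun ζ : ℂ => (supp p a ζ).re) 0 1 = 0 := by
      have h1 := Complex.reCLM.circleAverage_comp_comm
        (f := supp p a) (c := 0) (R := 1) hcontL.continuousOn.circleIntegrable'
      have h2 : Real.circleAverage (supp p a) 0 1 = supp p a 0 :=
        DiffContOnCl.circleAverage (supp_diff p a).diffContOnCl
      rw [h2, supp_zero, map_zero] at h1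
      exact h1
    have hlow : Real.circleAverage (fun ζ : ℂ => (1 - S p)⁻¹ + (2 * ((1 - S p)⁻¹) ^ 2) • (supp p a ζ).re) 0 1
        = (1 - S p)⁻¹ := by
      rw [Real.circleAverage_fun_add, Real.circleAverage_const, Real.circleAverage_fun_smul, hav,
        smul_zero, add_zero]
      · exact circleIntegrable_const _ _ _
      · exact (Continuous.continuousOn (by fun_prop)).circleIntegrable'
    calc (1 - S p)⁻¹ = _ := hlow.symm
      _ ≤ _ := by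
        apply Real.circleAverage_mono
        · exact (Continuous.continuousOn (by fun_prop)).circleIntegrable'
        · apply ContinuousOn.circleIntegrable'
          apply ContinuousOn.inv₀ (continuous_const.sub hcontS).continuousOn
          intro ζ hζ
          rw [abs_one, mem_sphere_zero_iff_norm] at hζ
          have h1 := hS ζ hζ.le
          exact (by linarith : (0:ℝ) < 1 - S (p + ζ • a)).ne'
        · intro ζ hζ
          rw [abs_one, mem_sphere_zero_iff_norm] at hζ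
          have h1 := hS ζ hζ.le
          have h2 := psi_bound hp h1
          have h3 := supp_bound p a ζ
          have h4 : 0 ≤ ((1 - S p)⁻¹) ^ 2 := sq_nonneg _
          have h5 : ((1 - S p)⁻¹) ^ 2 * (2 * (supp p a ζ).re) ≤ ((1 - S p)⁻¹) ^ 2 * (S (p + ζ • a) - S p) :=
            mul_le_mul_of_nonneg_left (by linarith) h4
          simp only [smul_eq_mul]
          linarith
  · intro c
    have hset : {x | x ∈ Dom ∧ (1 - S x)⁻¹ ≤ c} = {x | S x ≤ 1 ∧ 1 ≤ c * (1 - S x)} := by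
      ext x
      simp only [mem_ofPred_eq, Dom]
      constructor
      · rintro ⟨h1, h2⟩
        have h3 : 0 < 1 - S x := by linarith
        refine ⟨h1.le, ?_⟩
        calc (1:ℝ) = (1 - S x)⁻¹ * (1 - S x) := (inv_mul_cancel₀ h3.ne').symm
          _ ≤ c * (1 - S x) := mul_le_mul_of_nonneg_right h2 h3.le
      · rintro ⟨h1, h2⟩
        have h3 : S x < 1 := by
          rcases h1.lt_or_eq with h | h
          · exact h
          · rw [h] at h2; norm_num at h2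
        have h4 : 0 < 1 - S x := by linarith
        refine ⟨h3, ?_⟩
        rw [inv_le_iff_one_le_mul₀ h4]
        exact h2
    show IsCompact {x | x ∈ Dom ∧ (1 - S x)⁻¹ ≤ c}
    rw [hset]
    apply Metric.isCompact_of_isClosed_isBounded
    · exact (isClosed_le S_cont continuous_const).inter
        (isClosed_le continuous_const (continuous_const.mul (continuous_const.sub S_cont)))
    · rw [isBounded_iff_forall_norm_le]
      exact ⟨1, fun x hx => norm_le_of_S_le hx.1⟩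

end Pool.Agent.Lib.MP_7ebee3_an
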