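import Pool.Agent.Lib.MP_7ebee3_an.Forms

set_option autoImplicit false
open scoped ContDiff Topology
open MeasureTheory Metric Set

namespace Pool.Agent.Lib.MP_7ebee3_an

/-- bounded by `b` and `L`-Lipschitz on `P` -/
def BL (P : Set (Fin 4 → ℂ)) (b L : ℝ) (F : (Fin 4 → ℂ) → ℂ) : Prop :=
  0 ≤ b ∧ 0 ≤ L ∧ (∀ x ∈ P, ‖F x‖ ≤ b) ∧ ∀ x ∈ P, ∀ y ∈ P, ‖F x - F y‖ ≤ L * ‖x - y‖

lemma BL.mul {P : Set (Fin 4 → ℂ)} {b L b' L' : ℝ} {F G : (Fin 4 → ℂ) → ℂ} (hF : BL P b L F)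
    (hG : BL P b' L' G) : BL P (b * b') (b * L' + b' * L) (fun x => F x * G x) := by
  obtain ⟨h1, h2, h3, h4⟩ := hF
  obtain ⟨g1, g2, g3, g4⟩ := hG
  refine ⟨mul_nonneg h1 g1, by positivity, ?_, ?_⟩
  · intro x hx
    rw [norm_mul]
    exact mul_le_mul (h3 x hx) (g3 x hx) (norm_nonneg _) h1
  · intro x hx y hy
    have e : F x * G x - F y * G y = F x * (G x - G y) + G y * (F x - F y) := by ring
    rw [e]
    calc ‖F x * (G x - G y) + G y * (F x - F y)‖ ≤ ‖F x * (G x - G y)‖ + ‖G y * (F x - F y)‖ := norm_add_le _ _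
      _ = ‖F x‖ * ‖G x - G y‖ + ‖G y‖ * ‖F x - F y‖ := by rw [norm_mul, norm_mul]
      _ ≤ b * (L' * ‖x - y‖) + b' * (L * ‖x - y‖) := by
        apply add_le_add
        · exact mul_le_mul (h3 x hx) (g4 x hx y hy) (norm_nonneg _) h1
        · exact mul_le_mul (g3 y hy) (h4 x hx y hy) (norm_nonneg _) g1
      _ = (b * L' + b' * L) * ‖x - y‖ := by ring

lemma BL.sub {P : Set (Fin 4 → ℂ)} {b L b' L' : ℝ} {F G : (Fin 4 → ℂ) → ℂ} (hF : BL P b L F)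
    (hG : BL P b' L' G) : BL P (b + b') (L + L') (fun x => F x - G x) := by
  obtain ⟨h1, h2, h3, h4⟩ := hF
  obtain ⟨g1, g2, g3, g4⟩ := hG
  refine ⟨add_nonneg h1 g1, add_nonneg h2 g2, ?_, ?_⟩
  · intro x hx
    exact (norm_sub_le _ _).trans (add_le_add (h3 x hx) (g3 x hx))
  · intro x hx y hy
    have e : F x - G x - (F y - G y) = (F x - F y) - (G x - G y) := by ring
    rw [e, add_mul]
    exact (norm_sub_le _ _).trans (add_le_add (h4 x hx y hy) (g4 x hx y hy))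

lemma BL.mono {P : Set (Fin 4 → ℂ)} {b L b' L' : ℝ} {F : (Fin 4 → ℂ) → ℂ} (hF : BL P b L F)
    (hb : b ≤ b') (hL : L ≤ L') : BL P b' L' F := by
  obtain ⟨h1, h2, h3, h4⟩ := hF
  refine ⟨h1.trans hb, h2.trans hL, fun x hx => (h3 x hx).trans hb, fun x hx y hy => ?_⟩
  exact (h4 x hx y hy).trans (mul_le_mul_of_nonneg_right hL (norm_nonneg _))

/-- the closed unit polydisc -/
def Pd : Set (Fin 4 → ℂ) := {x | ∀ i, ‖x i‖ ≤ 1}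

lemma BL_coord (i : Fin 4) : BL Pd 1 1 (fun x => x i) := by
  refine ⟨zero_le_one, zero_le_one, fun x hx => hx i, fun x hx y hy => ?_⟩
  rw [one_mul]
  exact norm_le_pi_norm (x - y) i

lemma BL_pow (i : Fin 4) (k : ℕ) : BL Pd 1 k (fun x => x i ^ k) := by
  induction k with
  | zero =>
    refine ⟨zero_le_one, by simp, fun x hx => by simp, fun x hx y hy => by simp⟩
  | succ k ih =>
    have := ih.mul (BL_coord i)
    simp only [← pow_succ] at this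
    apply this.mono (by norm_num)
    push_cast; linarith

lemma BL_theta : BL Pd 2 7 (fun x => x 1 ^ 6 - x 2) := by
  have := (BL_pow 1 6).sub (BL_coord 2)
  exact this.mono (by norm_num) (by norm_num)

lemma BL_hol (κ : ℕ) : BL Pd 2 (4 * (κ:ℝ) ^ 72 + 9) (hol κ) := by
  have h1 := ((BL_coord 0).mul (BL_pow 3 (2 * κ ^ 72))).mul BL_theta
  apply h1.mono (by norm_num)
  push_cast
  linarith

lemma hh_le {σ : ℝ} (hσ : 0 < σ) (z : ℂ) : hh σ z ≤ σ⁻¹ := by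
  unfold hh
  apply inv_anti₀ hσ
  have := sq_nonneg ‖z‖
  linarith

lemma BL_hh {σ : ℝ} (hσ : 0 < σ) : BL Pd σ⁻¹ (2 * σ⁻¹ ^ 2) (fun x => ((hh σ (x 1) : ℝ) : ℂ)) := by
  refine ⟨by positivity, by positivity, fun x _ => ?_, fun x hx y hy => ?_⟩
  · rw [Complex.norm_real, Real.norm_eq_abs, abs_of_pos (hh_pos hσ _)]
    exact hh_le hσ _
  · rw [← Complex.ofReal_sub, Complex.norm_real, Real.norm_eq_abs]
    have e : hh σ (x 1) - hh σ (y 1) = (‖y 1‖ ^ 2 - ‖x 1‖ ^ 2) * (hh σ (x 1) * hh σ (y 1)) := by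
      unfold hh; field_simp; ring
    have h2 : |‖y 1‖ ^ 2 - ‖x 1‖ ^ 2| ≤ 2 * ‖x - y‖ := by
      have e2 : ‖y 1‖ ^ 2 - ‖x 1‖ ^ 2 = (‖y 1‖ + ‖x 1‖) * (‖y 1‖ - ‖x 1‖) := by ring
      rw [e2, abs_mul]
      apply mul_le_mul
      · rw [abs_of_nonneg (by positivity)]
        have := hx 1; have := hy 1; linarith
      · calc |‖y 1‖ - ‖x 1‖| ≤ ‖y 1 - x 1‖ := abs_norm_sub_norm_le _ _
          _ = ‖x 1 - y 1‖ := norm_sub_rev _ _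
          _ ≤ ‖x - y‖ := norm_le_pi_norm (x - y) 1
      · exact abs_nonneg _
      · norm_num
    rw [e, abs_mul, abs_of_pos (mul_pos (hh_pos hσ _) (hh_pos hσ _))]
    have h3 : hh σ (x 1) * hh σ (y 1) ≤ σ⁻¹ ^ 2 := by
      rw [pow_two]
      exact mul_le_mul (hh_le hσ _) (hh_le hσ _) (hh_pos hσ _).le (by positivity)
    calc |‖y 1‖ ^ 2 - ‖x 1‖ ^ 2| * (hh σ (x 1) * hh σ (y 1)) ≤ (2 * ‖x - y‖) * σ⁻¹ ^ 2 :=
          mul_le_mul h2 h3 (mul_pos (hh_pos hσ _) (hh_pos hσ _)).le (by positivity)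
      _ = 2 * σ⁻¹ ^ 2 * ‖x - y‖ := by ring

lemma BL_vf {κ : ℕ} (hκ : 0 < κ) : ∃ b L, BL Pd b L (vf κ) := by
  have hc : BL Pd 1 1 (fun x => (starRingEnd ℂ) (x 1)) := by
    refine ⟨zero_le_one, zero_le_one, fun x hx => ?_, fun x hx y hy => ?_⟩
    · rw [Complex.norm_conj]; exact hx 1
    · rw [← map_sub, Complex.norm_conj, one_mul]
      exact norm_le_pi_norm (x - y) 1
  exact ⟨_, _, (BL_hol κ).mul ((BL_hh (sg_pos hκ)).mul hc)⟩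

lemma BL_ff {κ : ℕ} (hκ : 0 < κ) : BL Pd (2 * κ ^ 6) (21 * κ ^ 78) (ff κ) := by
  have hσ := sg_pos hκ
  have hκ1 : (1:ℝ) ≤ κ := by exact_mod_cast hκ
  have hsi : (sg κ)⁻¹ = (κ:ℝ) ^ 6 := by unfold sg; rw [inv_inv]
  have hG : BL Pd ((κ:ℝ) ^ 6) (4 * (κ:ℝ) ^ 12) (fun x => ((sg κ * hh (sg κ) (x 1) ^ 2 : ℝ) : ℂ)) := by
    have h1 := (BL_hh hσ).mul (BL_hh hσ)
    have hc : BL Pd (sg κ) 0 (fun _ => ((sg κ : ℝ) : ℂ)) := by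
      refine ⟨hσ.le, le_rfl, fun x _ => ?_, fun x _ y _ => by simp⟩
      rw [Complex.norm_real, Real.norm_eq_abs, abs_of_pos hσ]
    have h2 := hc.mul h1
    have e : (fun x : Fin 4 → ℂ => ((sg κ * hh (sg κ) (x 1) ^ 2 : ℝ) : ℂ))
        = (fun x => ((sg κ : ℝ) : ℂ) * (((hh (sg κ) (x 1) : ℝ) : ℂ) * ((hh (sg κ) (x 1) : ℝ) : ℂ))) := by
      funext x; push_cast; ring
    rw [e]
    have hs0 : sg κ * (sg κ)⁻¹ = 1 := mul_inv_cancel₀ hσ.ne'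
    apply h2.mono
    · rw [← mul_assoc, hs0, one_mul, hsi]
    · rw [mul_zero, add_zero]
      have : sg κ * ((sg κ)⁻¹ * (2 * (sg κ)⁻¹ ^ 2) + (sg κ)⁻¹ * (2 * (sg κ)⁻¹ ^ 2))
        = (sg κ * (sg κ)⁻¹) * (4 * ((sg κ)⁻¹) ^ 2) := by ring
      rw [this, hs0, hsi]
      apply le_of_eq; ring
  have h := (BL_hol κ).mul hG
  apply h.mono le_rfl
  have k1 : (κ:ℝ) ^ 6 ≤ (κ:ℝ) ^ 78 := pow_le_pow_right₀ hκ1 (by norm_num)
  have k2 : (κ:ℝ) ^ 12 ≤ (κ:ℝ) ^ 78 := pow_le_pow_right₀ hκ1 (by norm_num)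
  have k3 : (κ:ℝ) ^ 6 * (κ:ℝ) ^ 72 = (κ:ℝ) ^ 78 := by rw [← pow_add]
  nlinarith

/-! ### the sharp bound -/

lemma bern {t : ℝ} (h0 : 0 ≤ t) (h1 : t ≤ 1) (n : ℕ) : n * t * (1 - t) ^ n ≤ 1 := by
  have h2 : 1 + n * t ≤ (1 + t) ^ n := one_add_mul_le_pow (by linarith) n
  have h3 : (1 - t) ^ n * (1 + t) ^ n ≤ 1 := by
    rw [← mul_pow]
    apply pow_le_one₀
    · nlinarith
    · nlinarith
  have h4 : 0 ≤ (1 - t) ^ n := pow_nonneg (by linarith) n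
  nlinarith

lemma bern2 {X : ℝ} (hX : 0 ≤ X) {m n : ℕ} (hm : m ≠ 0) {c : ℝ} (hc : 0 ≤ c) (hX1 : X ^ m ≤ 1)
    (hcn : c ^ m * n = 1) : X * (1 - X ^ m) ^ n ≤ c := by
  have hXm : 0 ≤ X ^ m := pow_nonneg hX m
  have h1 : 0 ≤ 1 - X ^ m := by linarith
  have h2 := bern hXm hX1 n
  have hn : (0:ℝ) < n := by
    rcases Nat.eq_zero_or_pos n with h | h
    · subst h; simp at hcn
    · exact_mod_cast h
  have h3 : (X * (1 - X ^ m) ^ n) ^ m ≤ c ^ m := by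
    have hm1 : (1 - X ^ m) ^ n ≤ 1 := pow_le_one₀ h1 (by linarith)
    have h4 : ((1 - X ^ m) ^ n) ^ m ≤ (1 - X ^ m) ^ n := by
      calc ((1 - X ^ m) ^ n) ^ m ≤ ((1 - X ^ m) ^ n) ^ 1 :=
            pow_le_pow_of_le_one (pow_nonneg h1 n) hm1 (Nat.one_le_iff_ne_zero.mpr hm)
        _ = (1 - X ^ m) ^ n := pow_one _
    rw [mul_pow]
    have h5 : X ^ m * ((1 - X ^ m) ^ n) ^ m ≤ X ^ m * (1 - X ^ m) ^ n :=
      mul_le_mul_of_nonneg_left h4 hXm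
    have h6 : c ^ m = 1 / n := by field_simp; linarith
    rw [h6, le_div_iff₀ hn]
    nlinarith
  exact le_of_pow_le_pow_left₀ hm hc h3

lemma qs_bound {q s : ℝ} (hq0 : 0 ≤ q) (hs0 : 0 < s) :
    (q ^ 3 + s ^ 3) * (s ^ 2 * ((s ^ 2 + q ^ 2)⁻¹) ^ 2) ≤ s := by
  have eg : (q ^ 3 + s ^ 3) * (s ^ 2 * ((s ^ 2 + q ^ 2)⁻¹) ^ 2)
      = ((q ^ 3 + s ^ 3) * s ^ 2) / (s ^ 2 + q ^ 2) ^ 2 := by
    field_simp
  rw [eg, div_le_iff₀ (by positivity)]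
  have k1 : q ^ 3 * s ^ 2 ≤ s * q ^ 2 * (2 * s ^ 2 + q ^ 2) := by
    have : q * s ≤ 2 * s ^ 2 + q ^ 2 := by nlinarith [sq_nonneg (q - s)]
    calc q ^ 3 * s ^ 2 = s * q ^ 2 * (q * s) := by ring
      _ ≤ _ := mul_le_mul_of_nonneg_left this (by positivity)
  nlinarith

lemma ff_bound {κ : ℕ} (hκ : 0 < κ) {x : Fin 4 → ℂ} (hx : S x ≤ 1) :
    ‖ff κ x‖ ≤ ((κ:ℝ) ^ 21)⁻¹ := by
  have hσ := sg_pos hκ
  have hκ0 : (0:ℝ) < κ := by exact_mod_cast hκ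
  set θ := x 1 ^ 6 - x 2 with hθ
  set X := Real.sqrt (‖x 0‖ ^ 2 * ‖θ‖) with hX
  set Y := Real.sqrt ‖x 2‖ with hY
  set q := ‖x 1‖ with hq
  set n := κ ^ 72 with hn
  have hX0 : 0 ≤ X := Real.sqrt_nonneg _
  have hY0 : 0 ≤ Y := Real.sqrt_nonneg _
  have hq0 : 0 ≤ q := norm_nonneg _
  have hX2 : X ^ 2 = ‖x 0‖ ^ 2 * ‖θ‖ := Real.sq_sqrt (by positivity)
  have hY2 : Y ^ 2 = ‖x 2‖ := Real.sq_sqrt (norm_nonneg _)
  have hX4 : X ^ 4 = ‖x 0 ^ 2 * θ‖ ^ 2 := by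
    rw [norm_mul, norm_pow, ← hX2]; ring
  have hY8 : Y ^ 8 = ‖x 2 ^ 2‖ ^ 2 := by
    rw [norm_pow, ← hY2]; ring
  have hsum : ‖x 3‖ ^ 2 + X ^ 4 + Y ^ 8 ≤ 1 := by
    unfold S at hx
    rw [hX4, hY8]
    have p4 := sq_nonneg ‖x 0 ^ 12‖
    have p5 := sq_nonneg ‖x 1 ^ 36‖
    linarith
  have hX4' : 0 ≤ X ^ 4 := by positivity
  have hY8' : 0 ≤ Y ^ 8 := by positivity
  have h3' : 0 ≤ ‖x 3‖ ^ 2 := by positivity
  have hX1 : X ^ 4 ≤ 1 := by linarith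
  have hY1 : Y ^ 8 ≤ 1 := by linarith
  -- |x₃|^{2n}
  have hw : ‖x 3‖ ^ (2 * n) ≤ (1 - X ^ 4) ^ n * (1 - Y ^ 8) ^ n := by
    rw [pow_mul, ← mul_pow]
    apply pow_le_pow_left₀ h3'
    nlinarith
  -- |x₀||θ|
  have hθle : Real.sqrt ‖θ‖ ≤ q ^ 3 + Y := by
    apply Real.sqrt_le_iff.mpr
    refine ⟨by positivity, ?_⟩
    have : ‖θ‖ ≤ q ^ 6 + Y ^ 2 := by
      rw [hY2, hθ]
      refine (norm_sub_le _ _).trans ?_
      rw [norm_pow]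
    have h2 : 0 ≤ q ^ 3 * Y := by positivity
    nlinarith
  have hx0θ : ‖x 0‖ * ‖θ‖ = X * Real.sqrt ‖θ‖ := by
    rw [hX, Real.sqrt_mul (by positivity), Real.sqrt_sq (norm_nonneg _), mul_assoc,
      Real.mul_self_sqrt (norm_nonneg _)]
  -- bounds
  have hcn : (((κ:ℝ) ^ 18)⁻¹) ^ 4 * (n:ℝ) = 1 := by
    rw [hn]; push_cast
    rw [inv_pow, ← pow_mul]
    exact inv_mul_cancel₀ (by positivity)
  have hcn2 : (((κ:ℝ) ^ 9)⁻¹) ^ 8 * (n:ℝ) = 1 := by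
    rw [hn]; push_cast
    rw [inv_pow, ← pow_mul]
    exact inv_mul_cancel₀ (by positivity)
  have bX := bern2 hX0 (by norm_num : (4:ℕ) ≠ 0) (by positivity : (0:ℝ) ≤ ((κ:ℝ) ^ 18)⁻¹) hX1 hcn
  have bY := bern2 hY0 (by norm_num : (8:ℕ) ≠ 0) (by positivity : (0:ℝ) ≤ ((κ:ℝ) ^ 9)⁻¹) hY1 hcn2
  -- g
  set g := sg κ * hh (sg κ) (x 1) ^ 2 with hg
  have hg0 : 0 ≤ g := by have := hh_pos hσ (x 1); positivity
  have hnorm : ‖ff κ x‖ = (‖x 0‖ * ‖θ‖) * ‖x 3‖ ^ (2 * n) * g := by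
    unfold ff hol
    rw [norm_mul, norm_mul, norm_mul, norm_pow, Complex.norm_real, Real.norm_eq_abs, ← hg, abs_of_nonneg hg0]
    ring
  rw [hnorm, hx0θ]
  set a := (1 - X ^ 4) ^ n with ha
  set b := (1 - Y ^ 8) ^ n with hb
  have ha0 : 0 ≤ a := pow_nonneg (by linarith) n
  have hb0 : 0 ≤ b := pow_nonneg (by linarith) n
  have hb1 : b ≤ 1 := pow_le_one₀ (by linarith) (by linarith)
  have step1 : X * Real.sqrt ‖θ‖ * ‖x 3‖ ^ (2 * n) ≤ ((κ:ℝ) ^ 18)⁻¹ * (q ^ 3 + ((κ:ℝ) ^ 9)⁻¹) := by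
    calc X * Real.sqrt ‖θ‖ * ‖x 3‖ ^ (2 * n) ≤ X * (q ^ 3 + Y) * (a * b) := by
          apply mul_le_mul _ hw (by positivity) (by positivity)
          exact mul_le_mul_of_nonneg_left hθle hX0
      _ = (X * a) * (q ^ 3 * b + Y * b) := by ring
      _ ≤ ((κ:ℝ) ^ 18)⁻¹ * (q ^ 3 + ((κ:ℝ) ^ 9)⁻¹) := by
          apply mul_le_mul bX _ (by positivity) (by positivity)
          apply add_le_add
          · exact mul_le_of_le_one_right (by positivity) hb1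
          · exact bY
  -- (q³ + s³) g ≤ s
  have step2 : (q ^ 3 + ((κ:ℝ) ^ 9)⁻¹) * g ≤ ((κ:ℝ) ^ 3)⁻¹ := by
    set s := ((κ:ℝ) ^ 3)⁻¹ with hs
    have hs0 : 0 < s := by positivity
    have e9 : ((κ:ℝ) ^ 9)⁻¹ = s ^ 3 := by rw [hs, inv_pow, ← pow_mul]
    have e6 : sg κ = s ^ 2 := by unfold sg; rw [hs, inv_pow, ← pow_mul]
    have eg : g = s ^ 2 * ((s ^ 2 + q ^ 2)⁻¹) ^ 2 := by
      rw [hg, hh, e6]
    rw [eg, e9]
    exact qs_bound hq0 hs0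
  calc X * Real.sqrt ‖θ‖ * ‖x 3‖ ^ (2 * n) * g ≤ ((κ:ℝ) ^ 18)⁻¹ * (q ^ 3 + ((κ:ℝ) ^ 9)⁻¹) * g :=
        mul_le_mul_of_nonneg_right step1 hg0
    _ = ((κ:ℝ) ^ 18)⁻¹ * ((q ^ 3 + ((κ:ℝ) ^ 9)⁻¹) * g) := by ring
    _ ≤ ((κ:ℝ) ^ 18)⁻¹ * ((κ:ℝ) ^ 3)⁻¹ := mul_le_mul_of_nonneg_left step2 (by positivity)
    _ = ((κ:ℝ) ^ 21)⁻¹ := by rw [← mul_inv, ← pow_add]

end Pool.Agent.Lib.MP_7ebee3_an
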