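import Pool.Agent.Lib.MP_7ebee3_an.Lower

set_option autoImplicit false
open scoped ContDiff Topology
open MeasureTheory Metric Set

namespace Pool.Agent.Lib.MP_7ebee3_an

/-! ### Hölder estimates from Lipschitz estimates -/

lemma Pd_dist {x y : Fin 4 → ℂ} (hx : x ∈ Pd) (hy : y ∈ Pd) : ‖x - y‖ ≤ 2 := by
  rw [pi_norm_le_iff_of_nonneg (by norm_num)]
  intro i
  have h1 := hx i
  have h2 := hy i
  calc ‖(x - y) i‖ ≤ ‖x i‖ + ‖y i‖ := norm_sub_le _ _
    _ ≤ 2 := by linarith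

lemma holder_of_BL {b L : ℝ} {F : (Fin 4 → ℂ) → ℂ} (hF : BL Pd b L F) {α : ℝ} (hα0 : 0 < α)
    (hα1 : α ≤ 1) : HolderLe α Pd F (b + 2 * L) := by
  obtain ⟨hb, hL, h1, h2⟩ := hF
  refine ⟨fun x hx => (h1 x hx).trans (by linarith), fun x hx y hy => ?_⟩
  have hd0 : 0 ≤ ‖x - y‖ := norm_nonneg _
  have hd2 : ‖x - y‖ ≤ 2 := Pd_dist hx hy
  have key : ‖x - y‖ ≤ 2 * ‖x - y‖ ^ α := by
    have e1 : ‖x - y‖ / 2 ≤ (‖x - y‖ / 2) ^ α := by
      have := Real.rpow_le_rpow_of_exponent_ge' (x := ‖x - y‖ / 2) (by positivity) (by linarith) hα0.le hα1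
      rwa [Real.rpow_one] at this
    have e2 : (‖x - y‖ / 2) ^ α ≤ ‖x - y‖ ^ α := Real.rpow_le_rpow (by positivity) (by linarith) hα0.le
    linarith
  have hp : 0 ≤ ‖x - y‖ ^ α := Real.rpow_nonneg hd0 _
  calc ‖F x - F y‖ ≤ L * ‖x - y‖ := h2 x hx y hy
    _ ≤ L * (2 * ‖x - y‖ ^ α) := mul_le_mul_of_nonneg_left key hL
    _ ≤ (b + 2 * L) * ‖x - y‖ ^ α := by nlinarith

lemma holder_interp {P : Set (Fin 4 → ℂ)} {L : ℝ} (hL : 0 < L) {F : (Fin 4 → ℂ) → ℂ}
    (h1 : ∀ x ∈ P, ‖F x‖ ≤ 1) (h2 : ∀ x ∈ P, ∀ y ∈ P, ‖F x - F y‖ ≤ L * ‖x - y‖) {β : ℝ} (hβ0 : 0 < β)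
    (hβ1 : β ≤ 1) : ∀ x ∈ P, ∀ y ∈ P, ‖F x - F y‖ ≤ 2 * L ^ β * ‖x - y‖ ^ β := by
  intro x hx y hy
  have hd0 : 0 ≤ ‖x - y‖ := norm_nonneg _
  rw [mul_assoc, ← Real.mul_rpow hL.le hd0]
  have hLd : 0 ≤ L * ‖x - y‖ := by positivity
  rcases le_total (L * ‖x - y‖) 1 with h | h
  · have e1 : L * ‖x - y‖ ≤ (L * ‖x - y‖) ^ β := by
      have := Real.rpow_le_rpow_of_exponent_ge' (x := L * ‖x - y‖) hLd h hβ0.le hβ1
      rwa [Real.rpow_one] at this
    have := h2 x hx y hy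
    have : 0 ≤ (L * ‖x - y‖) ^ β := Real.rpow_nonneg hLd _
    linarith
  · have e1 : 1 ≤ (L * ‖x - y‖) ^ β := Real.one_le_rpow h hβ0.le
    have e2 : ‖F x - F y‖ ≤ 2 := (norm_sub_le _ _).trans (by have := h1 x hx; have := h1 y hy; linarith)
    linarith

/-- `μ_j = 4^{j+1}` -/
def mu (j : ℕ) : ℕ := 4 ^ (j + 1)

/-- `κ_j = μ_j²` -/
def kap (j : ℕ) : ℕ := mu j ^ 2

/-- the power of `x₃` -/
def pw (j : ℕ) : ℕ := 2 * kap j ^ 72

lemma mu_pos (j : ℕ) : 0 < mu j := by unfold mu; positivity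

lemma kap_pos (j : ℕ) : 0 < kap j := pow_pos (mu_pos j) 2

lemma kap_ge (j : ℕ) : 2 ≤ kap j := by
  unfold kap mu
  have h : 4 ≤ 4 ^ (j + 1) := by
    calc 4 = 4 ^ 1 := (pow_one 4).symm
      _ ≤ 4 ^ (j + 1) := Nat.pow_le_pow_right (by norm_num) (by omega)
  nlinarith

lemma pw_eq (j : ℕ) : pw j = 2 * 4 ^ (144 * (j + 1)) := by
  unfold pw kap mu
  rw [← pow_mul, ← pow_mul]
  congr 2
  ring

lemma pw_dvd {i j : ℕ} (h : j ≤ i) : pw j ∣ pw i := by
  rw [pw_eq, pw_eq]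
  exact mul_dvd_mul_left 2 (pow_dvd_pow 4 (by omega))

lemma pw_lt {i j : ℕ} (h : j < i) : pw j < pw i := by
  rw [pw_eq, pw_eq]
  apply Nat.mul_lt_mul_of_pos_left _ (by norm_num)
  exact Nat.pow_lt_pow_right (by norm_num) (by omega)

lemma pw_pos (j : ℕ) : 0 < pw j := by rw [pw_eq]; positivity

/-- coefficient -/
noncomputable def cc (j : ℕ) : ℝ := (1/2) ^ j / (mu j : ℝ)

lemma cc_pos (j : ℕ) : 0 < cc j := by
  unfold cc; have : (0:ℝ) < mu j := by exact_mod_cast mu_pos j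
  positivity

/-- the building blocks -/
noncomputable def G (j : ℕ) (x : Fin 4 → ℂ) : ℂ := ((cc j * (kap j : ℝ) ^ 21 : ℝ) : ℂ) * ff (kap j) x

/-- `{S ≤ 1}` -/
def KK : Set (Fin 4 → ℂ) := {x | S x ≤ 1}

lemma KK_sub_Pd : KK ⊆ Pd := fun _ hx => coord_le_of_S_le hx

lemma G_holder {β : ℝ} (hβ0 : 0 < β) (hβ1 : β ≤ 1 / 198) (j : ℕ) :
    HolderLe β KK (G j) (42 * (1/2) ^ j) := by
  have hκ := kap_pos j
  have hκR : (0:ℝ) < kap j := by exact_mod_cast hκ
  have hμR : (0:ℝ) < mu j := by exact_mod_cast mu_pos j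
  have hμ1 : (1:ℝ) ≤ mu j := by exact_mod_cast mu_pos j
  set F : (Fin 4 → ℂ) → ℂ := fun x => (((kap j : ℝ) ^ 21 : ℝ) : ℂ) * ff (kap j) x with hF
  have hF1 : ∀ x ∈ KK, ‖F x‖ ≤ 1 := by
    intro x hx
    rw [hF]
    simp only
    rw [norm_mul, Complex.norm_real, Real.norm_eq_abs, abs_of_pos (by positivity)]
    calc (kap j : ℝ) ^ 21 * ‖ff (kap j) x‖ ≤ (kap j : ℝ) ^ 21 * ((kap j : ℝ) ^ 21)⁻¹ :=
          mul_le_mul_of_nonneg_left (ff_bound hκ hx) (by positivity)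
      _ = 1 := mul_inv_cancel₀ (by positivity)
  have hF2 : ∀ x ∈ KK, ∀ y ∈ KK, ‖F x - F y‖ ≤ (21 * (kap j : ℝ) ^ 99) * ‖x - y‖ := by
    intro x hx y hy
    have h := (BL_ff hκ).2.2.2 x (KK_sub_Pd hx) y (KK_sub_Pd hy)
    rw [hF]
    simp only
    rw [← mul_sub, norm_mul, Complex.norm_real, Real.norm_eq_abs, abs_of_pos (by positivity)]
    calc (kap j : ℝ) ^ 21 * ‖ff (kap j) x - ff (kap j) y‖
        ≤ (kap j : ℝ) ^ 21 * (21 * (kap j : ℝ) ^ 78 * ‖x - y‖) := mul_le_mul_of_nonneg_left h (by positivity)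
      _ = (21 * (kap j : ℝ) ^ 99) * ‖x - y‖ := by ring
  have hF3 := holder_interp (by positivity : (0:ℝ) < 21 * (kap j : ℝ) ^ 99) hF1 hF2 hβ0 (by linarith)
  have hLβ : (21 * (kap j : ℝ) ^ 99) ^ β ≤ 21 * (mu j : ℝ) := by
    have hbase : 21 * (kap j : ℝ) ^ 99 ≤ (21 * (mu j : ℝ)) ^ (198:ℕ) := by
      have e : (kap j : ℝ) ^ 99 = (mu j : ℝ) ^ 198 := by
        unfold kap; push_cast; rw [← pow_mul]
      rw [e, mul_pow]
      apply mul_le_mul_of_nonneg_right _ (by positivity)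
      calc (21:ℝ) = 21 ^ 1 := (pow_one _).symm
        _ ≤ 21 ^ 198 := pow_le_pow_right₀ (by norm_num) (by norm_num)
    have h1 : (21 * (kap j : ℝ) ^ 99) ^ β ≤ ((21 * (mu j : ℝ)) ^ (198:ℕ)) ^ β :=
      Real.rpow_le_rpow (by positivity) hbase hβ0.le
    have h2 : ((21 * (mu j : ℝ)) ^ (198:ℕ)) ^ β = (21 * (mu j : ℝ)) ^ ((198:ℕ) * β) := by
      rw [Real.rpow_mul (by positivity), Real.rpow_natCast]
    have h3 : (21 * (mu j : ℝ)) ^ ((198:ℕ) * β) ≤ (21 * (mu j : ℝ)) ^ (1:ℝ) := by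
      apply Real.rpow_le_rpow_of_exponent_le
      · nlinarith
      · push_cast; linarith
    rw [Real.rpow_one] at h3
    rw [h2] at h1
    exact h1.trans h3
  have hG : ∀ x, G j x = ((cc j : ℝ) : ℂ) * F x := by
    intro x; unfold G; rw [hF]; push_cast; ring
  have hccμ : cc j * (mu j : ℝ) = (1/2) ^ j := by unfold cc; field_simp
  have hccle : cc j ≤ (1/2) ^ j := by
    rw [← hccμ]; exact le_mul_of_one_le_right (cc_pos j).le hμ1
  refine ⟨fun x hx => ?_, fun x hx y hy => ?_⟩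
  · rw [hG, norm_mul, Complex.norm_real, Real.norm_eq_abs, abs_of_pos (cc_pos j)]
    have h0 : (0:ℝ) < (1/2) ^ j := by positivity
    calc cc j * ‖F x‖ ≤ (1/2) ^ j * 1 := mul_le_mul hccle (hF1 x hx) (norm_nonneg _) h0.le
      _ ≤ 42 * (1/2) ^ j := by linarith
  · rw [hG, hG, ← mul_sub, norm_mul, Complex.norm_real, Real.norm_eq_abs, abs_of_pos (cc_pos j)]
    have hd : 0 ≤ ‖x - y‖ ^ β := Real.rpow_nonneg (norm_nonneg _) _
    calc cc j * ‖F x - F y‖ ≤ cc j * (2 * (21 * (kap j : ℝ) ^ 99) ^ β * ‖x - y‖ ^ β) :=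
          mul_le_mul_of_nonneg_left (hF3 x hx y hy) (cc_pos j).le
      _ ≤ cc j * (2 * (21 * (mu j : ℝ)) * ‖x - y‖ ^ β) := by
          apply mul_le_mul_of_nonneg_left _ (cc_pos j).le
          apply mul_le_mul_of_nonneg_right _ hd
          linarith
      _ = 42 * (cc j * (mu j : ℝ)) * ‖x - y‖ ^ β := by ring
      _ = 42 * (1/2) ^ j * ‖x - y‖ ^ β := by rw [hccμ]

lemma tail_bound (a : ℕ → ℂ) {C : ℝ} (ha : ∀ j, ‖a j‖ ≤ C * (1/2) ^ j) :
    Summable a ∧ ∀ k, ‖∑' j, a j - ∑ j ∈ Finset.range k, a j‖ ≤ 2 * C * (1/2) ^ k := by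
  have hgeo : Summable (fun j : ℕ => C * (1/2 : ℝ) ^ j) := summable_geometric_two.mul_left C
  have hs : Summable a := Summable.of_norm_bounded hgeo ha
  refine ⟨hs, fun k => ?_⟩
  have e : ∑' j, a j - ∑ j ∈ Finset.range k, a j = ∑' j, a (j + k) := by
    rw [← hs.sum_add_tsum_nat_add k]; ring
  rw [e]
  have hgeo2 : HasSum (fun j : ℕ => (C * (1/2) ^ k) * (1/2 : ℝ) ^ j) ((C * (1/2) ^ k) * 2) :=
    hasSum_geometric_two.mul_left _
  have := tsum_of_norm_bounded hgeo2 (f := fun j => a (j + k)) (fun j => by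
    refine (ha (j + k)).trans (le_of_eq ?_)
    rw [pow_add]; ring)
  linarith

/-- the limit function -/
noncomputable def Fl (x : Fin 4 → ℂ) : ℂ := ∑' j, G j x

lemma Fl_summable {β : ℝ} (hβ0 : 0 < β) (hβ1 : β ≤ 1 / 198) {x : Fin 4 → ℂ} (hx : x ∈ KK) :
    Summable (fun j => G j x) :=
  (tail_bound _ (fun j => (G_holder hβ0 hβ1 j).1 x hx)).1

lemma Fl_tail {β : ℝ} (hβ0 : 0 < β) (hβ1 : β ≤ 1 / 198) (k : ℕ) :
    HolderLe β KK (fun x => Fl x - ∑ j ∈ Finset.range k, G j x) (84 * (1/2) ^ k) := by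
  refine ⟨fun x hx => ?_, fun x hx y hy => ?_⟩
  · have := (tail_bound _ (fun j => (G_holder hβ0 hβ1 j).1 x hx)).2 k
    calc _ ≤ 2 * 42 * (1/2) ^ k := this
      _ = 84 * (1/2) ^ k := by ring
  · set d := ‖x - y‖ ^ β with hd
    have hsx := Fl_summable hβ0 hβ1 hx
    have hsy := Fl_summable hβ0 hβ1 hy
    have h := (tail_bound (fun j => G j x - G j y) (C := 42 * d) (fun j => by
      refine ((G_holder hβ0 hβ1 j).2 x hx y hy).trans (le_of_eq ?_)
      rw [hd]; ring)).2 k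
    have e : Fl x - ∑ j ∈ Finset.range k, G j x - (Fl y - ∑ j ∈ Finset.range k, G j y)
        = ∑' j, (G j x - G j y) - ∑ j ∈ Finset.range k, (G j x - G j y) := by
      rw [hsx.tsum_sub hsy, Finset.sum_sub_distrib]
      unfold Fl; ring
    rw [e]
    calc _ ≤ 2 * (42 * d) * (1/2) ^ k := h
      _ = 84 * (1/2) ^ k * d := by ring

lemma closure_sub_KK : closure Dom ⊆ KK := closure_Dom_sub

lemma Dom_sub_KK : Dom ⊆ KK := fun x (hx : S x < 1) => (le_of_lt hx : S x ≤ 1)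

lemma HolderLe.mono_set {γ : ℝ} {P P' : Set (Fin 4 → ℂ)} (h : P ⊆ P') {F : (Fin 4 → ℂ) → ℂ} {C : ℝ}
    (hF : HolderLe γ P' F C) : HolderLe γ P F C :=
  ⟨fun x hx => hF.1 x (h hx), fun x hx y hy => hF.2 x (h hx) y (h hy)⟩

lemma HolderLe.mono_const {γ : ℝ} {P : Set (Fin 4 → ℂ)} {F : (Fin 4 → ℂ) → ℂ} {C C' : ℝ}
    (hF : HolderLe γ P F C) (h : C ≤ C') : HolderLe γ P F C' :=
  ⟨fun x hx => (hF.1 x hx).trans h, fun x hx y hy =>
    (hF.2 x hx y hy).trans (mul_le_mul_of_nonneg_right h (Real.rpow_nonneg (norm_nonneg _) _))⟩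

lemma HolderLe.cb {γ : ℝ} (hγ : 0 < γ) {F : (Fin 4 → ℂ) → ℂ} {C : ℝ} {P : Set (Fin 4 → ℂ)}
    (hF : HolderLe γ P F C) (hP : Dom ⊆ P) : CB Dom F := by
  refine ⟨?_, C, fun x hx => hF.1 x (hP hx)⟩
  intro x hx
  have hx' := hP hx
  rw [ContinuousWithinAt, tendsto_iff_norm_sub_tendsto_zero]
  have h1 : Filter.Tendsto (fun y : Fin 4 → ℂ => C * ‖y - x‖ ^ γ) (𝓝[Dom] x) (𝓝 0) := by
    have h2 : Filter.Tendsto (fun y : Fin 4 → ℂ => ‖y - x‖) (𝓝[Dom] x) (𝓝 0) := by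
      have h3 : Filter.Tendsto (fun y : Fin 4 → ℂ => ‖y - x‖) (𝓝 x) (𝓝 ‖x - x‖) :=
        (continuous_id.sub continuous_const).norm.tendsto x
      rw [sub_self, norm_zero] at h3
      exact h3.mono_left nhdsWithin_le_nhds
    have h4 := (h2.rpow_const (p := γ) (Or.inr hγ.le)).const_mul C
    rwa [Real.zero_rpow hγ.ne', mul_zero] at h4
  apply squeeze_zero' _ _ h1
  · exact Filter.Eventually.of_forall (fun _ => norm_nonneg _)
  · filter_upwards [self_mem_nhdsWithin] with y hy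
    exact hF.2 y (hP hy) x hx'

lemma weak_congr {n : ℕ} {Ω : Set (Fin n → ℂ)} (hΩ : IsOpen Ω) {u : (Fin n → ℂ) → ℂ}
    {f g : Fin n → (Fin n → ℂ) → ℂ} (h : ∀ j, ∀ x ∈ Ω, f j x = g j x) (hw : WeakDbar Ω u f) :
    WeakDbar Ω u g := by
  intro j φ h1 h2 h3
  rw [hw j φ h1 h2 h3]
  congr 1
  apply setIntegral_congr_fun hΩ.measurableSet
  intro x hx
  simp only [h j x hx]

/-- the finite forms are in the range -/
lemma psum_range {α β : ℝ} (hα0 : 0 < α) (hα1 : α ≤ 1) (hβ0 : 0 < β) (hβ1 : β ≤ 1 / 198) (k : ℕ) :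
    DbarRange α β Dom (fun j x => if j = 1 then ∑ i ∈ Finset.range k, G i x else 0) := by
  refine ⟨fun j => ?_, ?_⟩
  · by_cases hj : j = 1
    · refine ⟨∑ i ∈ Finset.range k, 42 * (1/2) ^ i, ?_⟩
      apply HolderLe.mono_set closure_sub_KK
      simp only [hj, if_true]
      refine ⟨fun x hx => ?_, fun x hx y hy => ?_⟩
      · exact norm_sum_le_of_le _ (fun i _ => (G_holder hβ0 hβ1 i).1 x hx)
      · rw [← Finset.sum_sub_distrib, Finset.sum_mul]
        exact norm_sum_le_of_le _ (fun i _ => (G_holder hβ0 hβ1 i).2 x hx y hy)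
    · refine ⟨0, ?_⟩
      simp only [hj, if_false]
      exact ⟨fun x _ => by simp, fun x _ y _ => by simp⟩
  · refine ⟨fun x => ∑ i ∈ Finset.range k, ((cc i * (kap i : ℝ) ^ 21 : ℝ) : ℂ) * vf (kap i) x, ?_, ?_⟩
    · have h1 : ∀ i, ∃ C, HolderLe α KK (fun x => ((cc i * (kap i : ℝ) ^ 21 : ℝ) : ℂ) * vf (kap i) x) C := by
        intro i
        obtain ⟨b, L, hbl⟩ := BL_vf (kap_pos i)
        have hc : BL Pd ‖((cc i * (kap i : ℝ) ^ 21 : ℝ) : ℂ)‖ 0 (fun _ => ((cc i * (kap i : ℝ) ^ 21 : ℝ) : ℂ)) :=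
          ⟨norm_nonneg _, le_rfl, fun _ _ => le_rfl, fun x _ y _ => by simp⟩
        exact ⟨_, (holder_of_BL (hc.mul hbl) hα0 hα1).mono_set KK_sub_Pd⟩
      choose C hC using h1
      refine ⟨∑ i ∈ Finset.range k, C i, ?_⟩
      apply HolderLe.mono_set closure_sub_KK
      refine ⟨fun x hx => ?_, fun x hx y hy => ?_⟩
      · exact norm_sum_le_of_le _ (fun i _ => (hC i).1 x hx)
      · rw [← Finset.sum_sub_distrib, Finset.sum_mul]
        exact norm_sum_le_of_le _ (fun i _ => (hC i).2 x hx y hy)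
    · have key := weak_sum Dom_open (Finset.range k) (fun i => ((cc i * (kap i : ℝ) ^ 21 : ℝ) : ℂ))
        (fun i => vf (kap i)) (fun i j x => if j = 1 then ff (kap i) x else 0)
        (fun i _ => vf_CB (kap_pos i))
        (fun i _ j => by
          by_cases hj : j = 1
          · simpa [hj] using ff_CB (kap_pos i)
          · simp only [hj, if_false]
            exact ⟨by fun_prop, 0, fun x _ => by simp⟩)
        (fun i _ => vf_weak (kap_pos i))
      apply weak_congr Dom_open _ key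
      intro j x _
      by_cases hj : j = 1
      · simp only [hj, if_true]
        rfl
      · simp only [hj, if_false, mul_zero, Finset.sum_const_zero]

/-! ### isolating one block by averaging over a rotation of the last variable -/

/-- rotation of the last variable -/
def rot (z : ℂ) : Fin 4 → ℂ := ![1, 1, 1, z]

lemma S_rot {z : ℂ} (hz : ‖z‖ = 1) (x : Fin 4 → ℂ) : S (rot z * x) = S x := by
  unfold S
  have e0 : (rot z * x) 0 = x 0 := by simp [rot]
  have e1 : (rot z * x) 1 = x 1 := by simp [rot]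
  have e2 : (rot z * x) 2 = x 2 := by simp [rot]
  have e3 : (rot z * x) 3 = z * x 3 := by simp [rot]
  rw [e0, e1, e2, e3, norm_mul, hz, one_mul]

lemma G_rot (z : ℂ) (j : ℕ) (x : Fin 4 → ℂ) : G j (rot z * x) = z ^ pw j * G j x := by
  unfold G ff hol
  have e0 : (rot z * x) 0 = x 0 := by simp [rot]
  have e1 : (rot z * x) 1 = x 1 := by simp [rot]
  have e2 : (rot z * x) 2 = x 2 := by simp [rot]
  have e3 : (rot z * x) 3 = z * x 3 := by simp [rot]
  rw [e0, e1, e2, e3, mul_pow]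
  unfold pw
  ring

lemma root_sum {q : ℕ} {z : ℂ} (hz : IsPrimitiveRoot z q) (m : ℕ) :
    ∑ t ∈ Finset.range q, (z ^ m) ^ t = if q ∣ m then (q : ℂ) else 0 := by
  split_ifs with h
  · have : z ^ m = 1 := (hz.pow_eq_one_iff_dvd m).mpr h
    simp [this]
  · have h1 : z ^ m ≠ 1 := fun hh => h ((hz.pow_eq_one_iff_dvd m).mp hh)
    rw [geom_sum_eq h1, ← pow_mul, mul_comm m q, pow_mul, hz.pow_eq_one, one_pow, sub_self, zero_div]

lemma isolate {β : ℝ} (hβ0 : 0 < β) (hβ1 : β ≤ 1 / 198) (j : ℕ) {z : ℂ}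
    (hz : IsPrimitiveRoot z (pw (j + 1))) {x : Fin 4 → ℂ} (hx : x ∈ KK) :
    ∑ t ∈ Finset.range (pw (j + 1)), ((pw (j + 1) : ℂ)⁻¹ * z ^ (t * (pw (j + 1) - pw j))) * Fl (rot (z ^ t) * x)
      = G j x := by
  set q := pw (j + 1) with hq
  have hq0 : 0 < q := pw_pos _
  have hqC : (q : ℂ) ≠ 0 := by exact_mod_cast hq0.ne'
  have hz1 : ‖z‖ = 1 := Complex.norm_eq_one_of_pow_eq_one hz.pow_eq_one hq0.ne'
  have hzt : ∀ t : ℕ, ‖z ^ t‖ = 1 := fun t => by rw [norm_pow, hz1, one_pow]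
  have hmem : ∀ t : ℕ, rot (z ^ t) * x ∈ KK := fun t => by
    show S _ ≤ 1
    rw [S_rot (hzt t)]; exact hx
  have hs : ∀ t : ℕ, Summable (fun i => ((q : ℂ)⁻¹ * z ^ (t * (q - pw j))) * G i (rot (z ^ t) * x)) :=
    fun t => (Fl_summable hβ0 hβ1 (hmem t)).mul_left _
  have e1 : ∑ t ∈ Finset.range q, ((q : ℂ)⁻¹ * z ^ (t * (q - pw j))) * Fl (rot (z ^ t) * x)
      = ∑' i, ∑ t ∈ Finset.range q, ((q : ℂ)⁻¹ * z ^ (t * (q - pw j))) * G i (rot (z ^ t) * x) := by
    rw [Summable.tsum_finsetSum (fun t _ => hs t)]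
    apply Finset.sum_congr rfl
    intro t _
    unfold Fl
    rw [tsum_mul_left]
  rw [e1]
  have e2 : ∀ i, ∑ t ∈ Finset.range q, ((q : ℂ)⁻¹ * z ^ (t * (q - pw j))) * G i (rot (z ^ t) * x)
      = (if q ∣ (q - pw j + pw i) then 1 else 0) * G i x := by
    intro i
    have e3 : ∀ t, ((q : ℂ)⁻¹ * z ^ (t * (q - pw j))) * G i (rot (z ^ t) * x)
        = (q : ℂ)⁻¹ * G i x * (z ^ (q - pw j + pw i)) ^ t := by
      intro t
      rw [G_rot, ← pow_mul, ← pow_mul]
      have : z ^ ((q - pw j + pw i) * t) = z ^ (t * (q - pw j)) * z ^ (t * pw i) := by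
        rw [← pow_add]; congr 1; ring
      rw [this]; ring
    rw [Finset.sum_congr rfl (fun t _ => e3 t), ← Finset.mul_sum, root_sum hz]
    split_ifs with h
    · field_simp
    · ring
  have hlt : pw j < q := pw_lt (Nat.lt_succ_self j)
  rw [tsum_congr e2, tsum_eq_single j]
  · have : q ∣ (q - pw j + pw j) := by rw [Nat.sub_add_cancel hlt.le]
    simp [this]
  · intro i hi
    have hnd : ¬ q ∣ (q - pw j + pw i) := by
      intro hdvd
      rcases lt_or_gt_of_ne hi with h | h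
      · have h1 : pw i < pw j := pw_lt h
        have h2 : 0 < q - pw j + pw i := by omega
        have h3 := Nat.le_of_dvd h2 hdvd
        omega
      · have h1 : q ∣ pw i := pw_dvd h
        have h2 : q ∣ q - pw j := (Nat.dvd_add_left h1).mp hdvd
        have h3 : 0 < q - pw j := by omega
        have h4 := Nat.le_of_dvd h3 h2
        have h5 := pw_pos j
        omega
    simp [hnd]

/-- the limit form has no continuous bounded primitive -/
lemma no_solution {β : ℝ} (hβ0 : 0 < β) (hβ1 : β ≤ 1 / 198) {u : (Fin 4 → ℂ) → ℂ} (hu : CB Dom u) :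
    ¬ WeakDbar Dom u (fun j x => if j = 1 then Fl x else 0) := by
  intro hw
  obtain ⟨huc, C, hC⟩ := hu
  have hFlCB : CB Dom Fl := by
    have h := Fl_tail hβ0 hβ1 0
    simp only [Finset.range_zero, Finset.sum_empty, sub_zero] at h
    exact h.cb hβ0 Dom_sub_KK
  have hbound : ∀ j : ℕ, (2:ℝ) ^ j ≤ 24 * C := by
    intro j
    set q := pw (j + 1) with hq
    have hq0 : 0 < q := pw_pos _
    obtain ⟨z, hz⟩ : ∃ z : ℂ, IsPrimitiveRoot z q := ⟨_, Complex.isPrimitiveRoot_exp q hq0.ne'⟩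
    have hz1 : ‖z‖ = 1 := Complex.norm_eq_one_of_pow_eq_one hz.pow_eq_one hq0.ne'
    have hzt : ∀ t : ℕ, ‖z ^ t‖ = 1 := fun t => by rw [norm_pow, hz1, one_pow]
    have hrot1 : ∀ t i, ‖rot (z ^ t) i‖ = 1 := by
      intro t i
      fin_cases i
      · simp [rot]
      · simp [rot]
      · simp [rot]
      · exact hzt t
    have hinv : ∀ t x, rot (z ^ t) * x ∈ Dom ↔ x ∈ Dom := by
      intro t x
      show S _ < 1 ↔ S _ < 1
      rw [S_rot (hzt t)]
    have hcont : ∀ t, Continuous (fun x : Fin 4 → ℂ => rot (z ^ t) * x) := fun t => by fun_prop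
    have hCBrot : ∀ t, ∀ v : (Fin 4 → ℂ) → ℂ, CB Dom v → CB Dom (fun x => v (rot (z ^ t) * x)) := by
      rintro t v ⟨h1, M, hM⟩
      refine ⟨h1.comp (hcont t).continuousOn (fun x hx => (hinv t x).mpr hx), M, fun x hx => ?_⟩
      exact hM _ ((hinv t x).mpr hx)
    have key := weak_sum Dom_open (Finset.range q) (fun t => (q : ℂ)⁻¹ * z ^ (t * (q - pw j)))
      (fun t x => u (rot (z ^ t) * x))
      (fun t j' x => (starRingEnd ℂ) (rot (z ^ t) j') * (if j' = 1 then Fl (rot (z ^ t) * x) else 0))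
      (fun t _ => hCBrot t u ⟨huc, C, hC⟩)
      (fun t _ j' => by
        by_cases hj : j' = 1
        · simp only [hj, if_true]
          obtain ⟨h1, M, hM⟩ := hCBrot t Fl hFlCB
          refine ⟨continuousOn_const.mul h1, M, fun x hx => ?_⟩
          have e1 : rot (z ^ t) 1 = 1 := rfl
          rw [e1, map_one]
          show ‖1 * Fl (rot (z ^ t) * x)‖ ≤ M
          rw [one_mul]
          exact hM x hx
        · simp only [hj, if_false, mul_zero]
          exact ⟨by fun_prop, 0, fun x _ => by simp⟩)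
      (fun t _ => weak_rot (rot (z ^ t)) (hrot1 t) (hinv t) hw)
    have key2 : WeakDbar Dom (fun x => ∑ t ∈ Finset.range q, ((q : ℂ)⁻¹ * z ^ (t * (q - pw j))) * u (rot (z ^ t) * x))
        (fun j' x => if j' = 1 then ((cc j * (kap j : ℝ) ^ 21 : ℝ) : ℂ) * ff (kap j) x else 0) := by
      apply weak_congr Dom_open _ key
      intro j' x hx
      by_cases hj : j' = 1
      · simp only [hj, if_true]
        have e1 : ∀ t : ℕ, rot (z ^ t) 1 = 1 := fun t => rfl
        simp only [e1, map_one, one_mul]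
        exact isolate hβ0 hβ1 j hz (Dom_sub_KK hx)
      · simp only [hj, if_false, mul_zero, Finset.sum_const_zero]
    have hlow := lower (kap_ge j) ((cc j * (kap j : ℝ) ^ 21 : ℝ) : ℂ) (B := C)
      (by
        apply continuousOn_finsetSum
        intro t _
        exact continuousOn_const.mul (hCBrot t u ⟨huc, C, hC⟩).1)
      (by
        intro x hx
        have h1 : ∀ t ∈ Finset.range q, ‖((q : ℂ)⁻¹ * z ^ (t * (q - pw j))) * u (rot (z ^ t) * x)‖ ≤ (q : ℝ)⁻¹ * C := by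
          intro t _
          rw [norm_mul, norm_mul, norm_inv, Complex.norm_natCast, norm_pow, hz1, one_pow, mul_one]
          exact mul_le_mul_of_nonneg_left (hC _ ((hinv t x).mpr hx)) (by positivity)
        refine (norm_sum_le_of_le _ h1).trans (le_of_eq ?_)
        rw [Finset.sum_const, Finset.card_range, nsmul_eq_mul, ← mul_assoc]
        rw [mul_inv_cancel₀ (by exact_mod_cast hq0.ne'), one_mul])
      key2
    have hκR : (0:ℝ) < kap j := by exact_mod_cast kap_pos j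
    have hμR : (0:ℝ) < mu j := by exact_mod_cast mu_pos j
    rw [Complex.norm_real, Real.norm_eq_abs, abs_of_pos (mul_pos (cc_pos j) (by positivity))] at hlow
    have h20 : (0:ℝ) < (kap j : ℝ) ^ 20 := by positivity
    have h1 : cc j * (kap j : ℝ) ≤ 96 * C := by
      have : cc j * (kap j : ℝ) * (kap j : ℝ) ^ 20 ≤ 96 * C * (kap j : ℝ) ^ 20 := by
        calc cc j * (kap j : ℝ) * (kap j : ℝ) ^ 20 = cc j * (kap j : ℝ) ^ 21 := by ring
          _ ≤ _ := hlow
          _ = _ := by ring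
      exact le_of_mul_le_mul_right this h20
    have h2 : cc j * (kap j : ℝ) = 4 * 2 ^ j := by
      unfold cc kap
      push_cast
      have : (1/2 : ℝ) ^ j / (mu j : ℝ) * (mu j : ℝ) ^ 2 = (1/2) ^ j * (mu j : ℝ) := by field_simp
      rw [this]
      unfold mu
      push_cast
      rw [pow_succ, ← mul_assoc, ← mul_pow]
      norm_num
      ring
    rw [h2] at h1
    linarith
  obtain ⟨j, hj⟩ := pow_unbounded_of_one_lt (24 * C) (by norm_num : (1:ℝ) < 2)
  exact absurd (hbound j) (not_le.mpr hj)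

theorem not_closed {α β : ℝ} (hα0 : 0 < α) (hαβ : α < β) (hβ1 : β ≤ 1 / 198) : ¬ DbarClosedRange α β Dom := by
  intro hcl
  have hβ0 : 0 < β := hα0.trans hαβ
  have h := hcl (fun j x => if j = 1 then Fl x else 0)
    (fun j => by
      by_cases hj : j = 1
      · simp only [hj, if_true]
        have h := Fl_tail hβ0 hβ1 0
        simp only [Finset.range_zero, Finset.sum_empty, sub_zero] at h
        exact ⟨_, h.mono_set closure_sub_KK⟩
      · simp only [hj, if_false]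
        exact ⟨0, fun x _ => by simp, fun x _ y _ => by simp⟩)
    (fun ε hε => by
      obtain ⟨k, hk⟩ := exists_pow_lt_of_lt_one (show (0:ℝ) < ε / 84 by positivity) (by norm_num : (1/2:ℝ) < 1)
      refine ⟨_, psum_range hα0 (by linarith) hβ0 hβ1 k, fun j => ?_⟩
      by_cases hj : j = 1
      · have h := ((Fl_tail hβ0 hβ1 k).mono_set closure_sub_KK).mono_const
          (show 84 * (1/2 : ℝ) ^ k ≤ ε by
            rw [lt_div_iff₀ (by norm_num)] at hk; linarith)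
        have e : ((fun (j : Fin 4) (x : Fin 4 → ℂ) => if j = 1 then Fl x else 0) j
            - (fun (j : Fin 4) (x : Fin 4 → ℂ) => if j = 1 then ∑ i ∈ Finset.range k, G i x else 0) j)
            = (fun x => Fl x - ∑ j ∈ Finset.range k, G j x) := by
          funext x; simp [hj]
        rw [e]
        exact h
      · have e : ((fun (j : Fin 4) (x : Fin 4 → ℂ) => if j = 1 then Fl x else 0) j
            - (fun (j : Fin 4) (x : Fin 4 → ℂ) => if j = 1 then ∑ i ∈ Finset.range k, G i x else 0) j)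
            = (fun _ => 0) := by
          funext x; simp [hj]
        rw [e]
        exact ⟨fun x _ => by simpa using hε.le, fun x _ y _ => by
          simp only [sub_zero, norm_zero]
          exact mul_nonneg hε.le (Real.rpow_nonneg (norm_nonneg _) _)⟩)
  obtain ⟨-, u, ⟨C, hu⟩, hw⟩ := h
  exact no_solution hβ0 hβ1 (hu.cb hα0 subset_closure) hw

end Pool.Agent.Lib.MP_7ebee3_an
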