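import Pool.Agent.Lib.MP_7ebee3_an.Rot
import Pool.Agent.Lib.MP_7ebee3_an.Dom

set_option autoImplicit false
open scoped ContDiff Topology
open MeasureTheory Metric Set

namespace Pool.Agent.Lib.MP_7ebee3_an

/-- `s² = κ⁻⁶` -/
noncomputable def sg (κ : ℕ) : ℝ := ((κ : ℝ) ^ 6)⁻¹

lemma sg_pos {κ : ℕ} (hκ : 0 < κ) : 0 < sg κ := by
  unfold sg; have : (0:ℝ) < κ := by exact_mod_cast hκ
  positivity

/-- `1/(σ + |z|²)` -/
noncomputable def hh (σ : ℝ) (z : ℂ) : ℝ := (σ + ‖z‖ ^ 2)⁻¹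

/-- `z̄/(σ + |z|²)` -/
noncomputable def W (σ : ℝ) (z : ℂ) : ℂ := (hh σ z : ℂ) * (starRingEnd ℂ) z

/-- holomorphic factor -/
noncomputable def hol (κ : ℕ) (x : Fin 4 → ℂ) : ℂ := x 0 * x 3 ^ (2 * κ ^ 72) * (x 1 ^ 6 - x 2)

/-- explicit solution -/
noncomputable def vf (κ : ℕ) (x : Fin 4 → ℂ) : ℂ := hol κ x * W (sg κ) (x 1)

/-- the `dz̄₁` coefficient of `∂̄ vf` -/
noncomputable def ff (κ : ℕ) (x : Fin 4 → ℂ) : ℂ :=
  hol κ x * ((sg κ * hh (sg κ) (x 1) ^ 2 : ℝ) : ℂ)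

lemma hh_pos {σ : ℝ} (hσ : 0 < σ) (z : ℂ) : 0 < hh σ z := by unfold hh; positivity

lemma hh_hasFDerivAt {σ : ℝ} (hσ : 0 < σ) (z : ℂ) :
    HasFDerivAt (hh σ) ((-(hh σ z) ^ 2) • ((2 : ℕ) • innerSL ℝ z)) z := by
  have h1 : HasFDerivAt (fun z : ℂ => σ + ‖z‖ ^ 2) ((2 : ℕ) • innerSL ℝ z) z := by
    exact (hasStrictFDerivAt_norm_sq z).hasFDerivAt.const_add σ
  have h2 := (hasDerivAt_inv (by positivity : σ + ‖z‖ ^ 2 ≠ 0)).comp_hasFDerivAt z h1
  have e : (-((σ + ‖z‖ ^ 2) ^ 2)⁻¹ : ℝ) = -(hh σ z) ^ 2 := by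
    unfold hh; rw [inv_pow]
  rw [e] at h2
  exact h2

lemma W_hasFDerivAt {σ : ℝ} (hσ : 0 < σ) (z : ℂ) :
    ∃ L : ℂ →L[ℝ] ℂ, HasFDerivAt (W σ) L z ∧ (L 1 + Complex.I * L Complex.I) / 2 = ((σ * hh σ z ^ 2 : ℝ) : ℂ) := by
  have h1 := hh_hasFDerivAt hσ z
  have h2 : HasFDerivAt (fun z : ℂ => (starRingEnd ℂ) z) (Complex.conjCLE : ℂ →L[ℝ] ℂ) z :=
    Complex.conjCLE.hasFDerivAt
  have h3 : HasFDerivAt (fun z => ((hh σ z : ℝ) : ℂ))
      (Complex.ofRealCLM.comp ((-(hh σ z) ^ 2) • ((2 : ℕ) • innerSL ℝ z))) z :=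
    Complex.ofRealCLM.hasFDerivAt.comp z h1
  have h4 := h3.mul h2
  refine ⟨_, h4, ?_⟩
  have hr : hh σ z * (σ + ‖z‖ ^ 2) = 1 := by
    unfold hh; exact inv_mul_cancel₀ (by positivity)
  have hrc : (hh σ z : ℂ) * ((σ : ℂ) + (z.re : ℂ) ^ 2 + (z.im : ℂ) ^ 2) = 1 := by
    have : (‖z‖ ^ 2 : ℝ) = z.re ^ 2 + z.im ^ 2 := by
      rw [← Complex.normSq_eq_norm_sq, Complex.normSq_apply]; ring
    rw [this] at hr
    exact_mod_cast (by rw [← hr]; ring : hh σ z * (σ + z.re ^ 2 + z.im ^ 2) = 1)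
  have hi1 : (innerSL ℝ z) (1:ℂ) = z.re := by
    simp [innerSL_apply_apply, Complex.inner]
  have hiI : (innerSL ℝ z) Complex.I = z.im := by
    simp [innerSL_apply_apply, Complex.inner]
  simp only [add_apply, smul_apply, ContinuousLinearMap.comp_apply, hi1, hiI]
  simp only [Complex.ofRealCLM_apply, smul_eq_mul, nsmul_eq_mul, Complex.ofReal_mul, Complex.ofReal_neg,
    Complex.ofReal_pow, Nat.cast_ofNat, Complex.ofReal_ofNat]
  have hc1 : (Complex.conjCLE : ℂ →L[ℝ] ℂ) 1 = 1 := by simp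
  have hcI : (Complex.conjCLE : ℂ →L[ℝ] ℂ) Complex.I = -Complex.I := by simp
  rw [hc1, hcI]
  have hz : (starRingEnd ℂ) z = (z.re : ℂ) - z.im * Complex.I := by
    apply Complex.ext <;> simp
  rw [hz]
  have hI := Complex.I_mul_I
  have hI2 : Complex.I ^ 2 = -1 := by rw [pow_two, hI]
  linear_combination (-(hh σ z : ℂ)) * hrc +
    ((hh σ z : ℂ) ^ 2 * z.im ^ 2 - (hh σ z : ℂ) / 2) * hI2

lemma hol_diff (κ : ℕ) : Differentiable ℂ (hol κ) := by
  unfold hol; fun_prop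

lemma dzbar_mul {n : ℕ} {F G : (Fin n → ℂ) → ℂ} {x : Fin n → ℂ} (j : Fin n)
    (hF : DifferentiableAt ℝ F x) (hG : DifferentiableAt ℝ G x) :
    dzbar j (fun x => F x * G x) x = F x * dzbar j G x + G x * dzbar j F x := by
  unfold dzbar
  have h := (hF.hasFDerivAt.mul hG.hasFDerivAt).fderiv
  have h' : fderiv ℝ (fun x => F x * G x) x = F x • fderiv ℝ G x + G x • fderiv ℝ F x := h
  rw [h']
  simp only [add_apply, smul_apply, smul_eq_mul]
  ring

lemma dzbar_hol {n : ℕ} {F : (Fin n → ℂ) → ℂ} {x : Fin n → ℂ} (j : Fin n)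
    (hF : DifferentiableAt ℂ F x) : dzbar j F x = 0 := by
  unfold dzbar
  have h : fderiv ℝ F x = (fderiv ℂ F x).restrictScalars ℝ :=
    (hF.hasFDerivAt.restrictScalars ℝ).fderiv
  rw [h]
  have e : (Pi.single j Complex.I : Fin n → ℂ) = Complex.I • (Pi.single j (1:ℂ)) := by
    ext i
    by_cases hi : i = j
    · subst hi; simp
    · simp [Pi.single_eq_of_ne hi]
  rw [e]
  simp only [ContinuousLinearMap.coe_restrictScalars', map_smul, smul_eq_mul]
  rw [← mul_assoc, Complex.I_mul_I]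
  ring

lemma W_contDiff {σ : ℝ} (hσ : 0 < σ) : ContDiff ℝ ∞ (W σ) := by
  unfold W hh
  have h1 : ContDiff ℝ ∞ (fun z : ℂ => σ + ‖z‖ ^ 2) := contDiff_const.add (contDiff_id.norm_sq ℝ)
  have h2 : ContDiff ℝ ∞ (fun z : ℂ => (σ + ‖z‖ ^ 2)⁻¹) := h1.inv (fun z => by positivity)
  exact (Complex.ofRealCLM.contDiff.comp h2).mul Complex.conjCLE.contDiff

lemma vf_contDiff {κ : ℕ} (hκ : 0 < κ) : ContDiff ℝ ∞ (vf κ) := by
  unfold vf
  have h1 : ContDiff ℝ ∞ (hol κ) := by unfold hol; fun_prop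
  have h2 : ContDiff ℝ ∞ (fun x : Fin 4 → ℂ => x 1) := by fun_prop
  exact h1.mul ((W_contDiff (sg_pos hκ)).comp h2)

lemma dzbar_vf {κ : ℕ} (hκ : 0 < κ) (j : Fin 4) (x : Fin 4 → ℂ) :
    dzbar j (vf κ) x = if j = 1 then ff κ x else 0 := by
  have hσ := sg_pos hκ
  obtain ⟨L, hL, hL2⟩ := W_hasFDerivAt hσ (x 1)
  have hp : HasFDerivAt (fun x : Fin 4 → ℂ => x 1) (ContinuousLinearMap.proj (R := ℝ) (φ := fun _ : Fin 4 => ℂ) 1) x :=
    (ContinuousLinearMap.proj (R := ℝ) (φ := fun _ : Fin 4 => ℂ) 1).hasFDerivAt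
  have hW : HasFDerivAt (fun x : Fin 4 → ℂ => W (sg κ) (x 1)) (L.comp (ContinuousLinearMap.proj (R := ℝ) (φ := fun _ : Fin 4 => ℂ) 1)) x :=
    HasFDerivAt.comp (g := W (sg κ)) (f := fun x : Fin 4 → ℂ => x 1) x hL hp
  have h1 : dzbar j (vf κ) x = hol κ x * dzbar j (fun x : Fin 4 → ℂ => W (sg κ) (x 1)) x := by
    have := dzbar_mul (F := hol κ) (G := fun x => W (sg κ) (x 1)) j
      ((hol_diff κ x).restrictScalars ℝ) hW.differentiableAt
    rw [dzbar_hol j (hol_diff κ x), mul_zero, add_zero] at this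
    exact this
  rw [h1]
  unfold dzbar
  rw [hW.fderiv]
  simp only [ContinuousLinearMap.comp_apply, ContinuousLinearMap.proj_apply]
  split_ifs with hj
  · subst hj
    simp only [Pi.single_eq_same]
    rw [hL2]
    rfl
  · have : (1 : Fin 4) ≠ j := fun h => hj h.symm
    simp [Pi.single_eq_of_ne this]

/-- classical solutions are distributional solutions -/
lemma weak_of_classical {n : ℕ} {Ω : Set (Fin n → ℂ)} {v : (Fin n → ℂ) → ℂ}
    (hv : ContDiff ℝ ∞ v) : WeakDbar Ω v (fun j x => dzbar j v x) := by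
  intro j φ hφ hφc hφs
  have hv1 : Continuous (fderiv ℝ v) := hv.continuous_fderiv (by simp)
  have hφ1 : Continuous (fderiv ℝ φ) := hφ.continuous_fderiv (by simp)
  have hdc : HasCompactSupport (fderiv ℝ φ) := hφc.fderiv ℝ
  have hibp : ∀ e : Fin n → ℂ, ∫ x, v x * fderiv ℝ φ x e = - ∫ x, fderiv ℝ v x e * φ x := by
    intro e
    apply integral_mul_fderiv_eq_neg_fderiv_mul_of_integrable
    · exact ((hv1.clm_apply continuous_const).mul hφ.continuous).integrable_of_hasCompactSupport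
        (hφc.mul_left)
    · exact (hv.continuous.mul (hφ1.clm_apply continuous_const)).integrable_of_hasCompactSupport
        ((hdc.comp_left (g := fun L : (Fin n → ℂ) →L[ℝ] ℂ => L e) (by simp)).mul_left)
    · exact (hv.continuous.mul hφ.continuous).integrable_of_hasCompactSupport hφc.mul_left
    · intro x _; exact hv.differentiable (by simp) x
    · intro x _; exact hφ.differentiable (by simp) x
  have i1 : ∀ e : Fin n → ℂ, Integrable (fun x => v x * fderiv ℝ φ x e) := by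
    intro e
    exact (hv.continuous.mul (hφ1.clm_apply continuous_const)).integrable_of_hasCompactSupport
        ((hdc.comp_left (g := fun L : (Fin n → ℂ) →L[ℝ] ℂ => L e) (by simp)).mul_left)
  have i2 : ∀ e : Fin n → ℂ, Integrable (fun x => fderiv ℝ v x e * φ x) := by
    intro e
    exact ((hv1.clm_apply continuous_const).mul hφ.continuous).integrable_of_hasCompactSupport
        (hφc.mul_left)
  have z1 : ∀ x, x ∉ Ω → φ x = 0 := fun x hx => by
    by_contra h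
    exact hx (hφs (subset_tsupport φ h))
  have z2 : ∀ x, x ∉ Ω → fderiv ℝ φ x = 0 := fun x hx => by
    by_contra h
    exact hx (hφs ((support_fderiv_subset ℝ) h))
  rw [setIntegral_eq_integral_of_forall_compl_eq_zero, setIntegral_eq_integral_of_forall_compl_eq_zero]
  · unfold dzbar
    have e1 : ∀ x, v x * ((fderiv ℝ φ x (Pi.single j 1) + Complex.I * fderiv ℝ φ x (Pi.single j Complex.I)) / 2)
        = (1/2) * (v x * fderiv ℝ φ x (Pi.single j 1)) + (Complex.I / 2) * (v x * fderiv ℝ φ x (Pi.single j Complex.I)) := by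
      intro x; ring
    have e2 : ∀ x, (fderiv ℝ v x (Pi.single j 1) + Complex.I * fderiv ℝ v x (Pi.single j Complex.I)) / 2 * φ x
        = (1/2) * (fderiv ℝ v x (Pi.single j 1) * φ x) + (Complex.I / 2) * (fderiv ℝ v x (Pi.single j Complex.I) * φ x) := by
      intro x; ring
    simp_rw [e1, e2]
    rw [integral_add ((i1 _).const_mul _) ((i1 _).const_mul _),
      integral_add ((i2 _).const_mul _) ((i2 _).const_mul _)]
    rw [integral_const_mul, integral_const_mul, integral_const_mul, integral_const_mul, hibp, hibp]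
    ring
  · intro x hx; rw [z1 x hx, mul_zero]
  · intro x hx; unfold dzbar; rw [z2 x hx]; simp

lemma vf_weak {κ : ℕ} (hκ : 0 < κ) : WeakDbar Dom (vf κ) (fun j x => if j = 1 then ff κ x else 0) := by
  have := weak_of_classical (Ω := Dom) (vf_contDiff hκ)
  simp_rw [dzbar_vf hκ] at this
  exact this

end Pool.Agent.Lib.MP_7ebee3_an
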