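import Mathlib

set_option autoImplicit false
open scoped Topology
open Metric Set

namespace Pool.Agent.Lib.MP_7ebee3_an

/-- maximum principle on the closed unit disc -/
lemma maxp (f : ℂ → ℂ) (U : Set ℂ) (hU : IsOpen U) (hsub : closedBall (0:ℂ) 1 ⊆ U)
    (hf : DifferentiableOn ℂ f U) (B : ℝ) (hB : ∀ z : ℂ, ‖z‖ = 1 → ‖f z‖ ≤ B) :
    ∀ z : ℂ, ‖z‖ ≤ 1 → ‖f z‖ ≤ B := by
  intro z hz
  have hd : DiffContOnCl ℂ f (ball 0 1) := by
    apply DifferentiableOn.diffContOnCl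
    rw [closure_ball (0:ℂ) one_ne_zero]
    exact hf.mono hsub
  apply Complex.norm_le_of_forall_mem_frontier_norm_le isBounded_ball hd
  · intro w hw
    rw [frontier_ball (0:ℂ) one_ne_zero, mem_sphere_zero_iff_norm] at hw
    exact hB w hw
  · rw [closure_ball (0:ℂ) one_ne_zero, mem_closedBall_zero_iff]
    exact hz

/-- Schwarz lemma for functions with a rotational symmetry -/
lemma schw (q : ℕ) (ω : ℂ) (hω : ∀ m : ℕ, 0 < m → m < q → ω ^ m ≠ 1) (hω1 : ‖ω‖ = 1)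
    (U : Set ℂ) (hU : IsOpen U) (hsub : closedBall (0:ℂ) 1 ⊆ U) (k : ℕ) (hk : k < q) :
    ∀ (f : ℂ → ℂ), DifferentiableOn ℂ f U →
    (∀ z : ℂ, z ≠ 0 → ‖z‖ ≤ 1 → f (ω * z) = ω ^ k * f z) →
    ∀ (B : ℝ), (∀ z : ℂ, ‖z‖ = 1 → ‖f z‖ ≤ B) →
    ∀ z : ℂ, ‖z‖ ≤ 1 → ‖f z‖ ≤ B * ‖z‖ ^ k := by
  induction k with
  | zero =>
    intro f hf _ B hB z hz
    simpa using maxp f U hU hsub hf B hB z hz
  | succ k ih =>
    intro f hf hsym B hB z hz
    have h0U : (0:ℂ) ∈ U := hsub (by simp)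
    have hcont : ContinuousAt f 0 := (hf 0 h0U).continuousWithinAt.continuousAt (hU.mem_nhds h0U)
    have hf0 : f 0 = 0 := by
      have t1 : Filter.Tendsto (fun z => f (ω * z)) (𝓝[≠] 0) (𝓝 (f 0)) := by
        have : Filter.Tendsto (fun z : ℂ => ω * z) (𝓝[≠] 0) (𝓝 0) := by
          have h1 : Filter.Tendsto (fun z : ℂ => ω * z) (𝓝 0) (𝓝 (ω * 0)) :=
            (continuous_const.mul continuous_id).tendsto 0
          rw [mul_zero] at h1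
          exact h1.mono_left nhdsWithin_le_nhds
        exact hcont.tendsto.comp this
      have t2 : Filter.Tendsto (fun z => ω ^ (k + 1) * f z) (𝓝[≠] 0) (𝓝 (ω ^ (k + 1) * f 0)) :=
        (hcont.tendsto.mono_left nhdsWithin_le_nhds).const_mul _
      have t3 : (fun z => f (ω * z)) =ᶠ[𝓝[≠] 0] (fun z => ω ^ (k + 1) * f z) := by
        have hb : ∀ᶠ z in 𝓝[≠] (0:ℂ), z ∈ ball (0:ℂ) 1 :=
          nhdsWithin_le_nhds (ball_mem_nhds _ one_pos)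
        filter_upwards [hb, self_mem_nhdsWithin] with z hz hz0
        exact hsym z hz0 (mem_ball_zero_iff.mp hz).le
      have h4 := tendsto_nhds_unique (t1.congr' t3) t2
      have h5 : (1 - ω ^ (k + 1)) * f 0 = 0 := by linear_combination h4
      rcases mul_eq_zero.mp h5 with h6 | h6
      · exact absurd (sub_eq_zero.mp h6).symm (hω (k + 1) (Nat.succ_pos k) hk)
      · exact h6
    have hg : DifferentiableOn ℂ (dslope f 0) U :=
      (Complex.differentiableOn_dslope (hU.mem_nhds h0U)).mpr hf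
    have hgz : ∀ z, z ≠ 0 → dslope f 0 z = f z / z := by
      intro z hz
      rw [dslope_of_ne _ hz, slope_def_field, hf0, sub_zero, sub_zero]
    have hmul : ∀ z, f z = z * dslope f 0 z := by
      intro z
      by_cases hz : z = 0
      · rw [hz, hf0, zero_mul]
      · rw [hgz z hz]; field_simp
    have hω0 : ω ≠ 0 := by
      intro h; rw [h, norm_zero] at hω1; exact zero_ne_one hω1
    have hgsym : ∀ z : ℂ, z ≠ 0 → ‖z‖ ≤ 1 → dslope f 0 (ω * z) = ω ^ k * dslope f 0 z := by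
      intro z hz hz1
      rw [hgz z hz, hgz _ (mul_ne_zero hω0 hz), hsym z hz hz1]
      field_simp
      try ring
    have hgB : ∀ z : ℂ, ‖z‖ = 1 → ‖dslope f 0 z‖ ≤ B := by
      intro z hz
      have hz0 : z ≠ 0 := by intro h; rw [h, norm_zero] at hz; exact zero_ne_one hz
      rw [hgz z hz0, norm_div, hz, div_one]
      exact hB z hz
    have := ih (by omega) (dslope f 0) hg hgsym B hgB z hz
    rw [hmul z, norm_mul, pow_succ]
    calc ‖z‖ * ‖dslope f 0 z‖ ≤ ‖z‖ * (B * ‖z‖ ^ k) := mul_le_mul_of_nonneg_left this (norm_nonneg _)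
      _ = B * (‖z‖ ^ k * ‖z‖) := by ring

/-- two variable version: odd in the first variable, character `ω^5` in the second,
    bound only needed on `|b| = 1` -/
lemma schw2 (ω : ℂ) (hω : ∀ m : ℕ, 0 < m → m < 6 → ω ^ m ≠ 1) (hω1 : ‖ω‖ = 1)
    (H : ℂ → ℂ → ℂ)
    (h1 : ∀ b : ℂ, ‖b‖ ≤ 1 → ∃ U : Set ℂ, IsOpen U ∧ closedBall (0:ℂ) 1 ⊆ U ∧
      DifferentiableOn ℂ (fun a => H a b) U)
    (h2 : ∀ a : ℂ, ‖a‖ ≤ 1 → ∃ U : Set ℂ, IsOpen U ∧ closedBall (0:ℂ) 1 ⊆ U ∧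
      DifferentiableOn ℂ (fun b => H a b) U)
    (s1 : ∀ a b : ℂ, ‖a‖ ≤ 1 → ‖b‖ ≤ 1 → H (-a) b = - H a b)
    (s2 : ∀ a b : ℂ, ‖a‖ ≤ 1 → ‖b‖ ≤ 1 → H a (ω * b) = ω ^ 5 * H a b)
    (B : ℝ) (hB : ∀ a b : ℂ, ‖a‖ ≤ 1 → ‖b‖ = 1 → ‖H a b‖ ≤ B) :
    ∀ a b : ℂ, ‖a‖ ≤ 1 → ‖b‖ ≤ 1 → ‖H a b‖ ≤ B * ‖a‖ * ‖b‖ ^ 5 := by
  intro a b ha hb
  have step1 : ∀ a : ℂ, ‖a‖ ≤ 1 → ‖H a b‖ ≤ B * ‖b‖ ^ 5 := by
    intro a ha
    obtain ⟨U, hU, hsub, hd⟩ := h2 a ha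
    exact schw 6 ω hω hω1 U hU hsub 5 (by norm_num) (fun b => H a b) hd
      (fun z _ hz => s2 a z ha hz) B (fun z hz => hB a z ha hz) b hb
  obtain ⟨U, hU, hsub, hd⟩ := h1 b hb
  have := schw 2 (-1) (fun m hm hm2 => by
      have : m = 1 := by omega
      subst this; norm_num) (by simp) U hU hsub 1 (by norm_num) (fun a => H a b) hd
      (fun z _ hz => by simpa using s1 z b hz hb) (B * ‖b‖ ^ 5) (fun z hz => step1 z hz.le) a ha
  calc ‖H a b‖ ≤ B * ‖b‖ ^ 5 * ‖a‖ ^ 1 := this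
    _ = B * ‖a‖ * ‖b‖ ^ 5 := by ring

end Pool.Agent.Lib.MP_7ebee3_an
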