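import Pool.Agent.Lib.MP_7ebee3_an.Defs

set_option autoImplicit false
open scoped ContDiff Topology Convolution
open MeasureTheory Metric Set ContinuousLinearMap

namespace Pool.Agent.Lib.MP_7ebee3_an

variable {n : ℕ}

/-- a real-linear map commuting with `i` on the coordinate vectors commutes with `i` -/
lemma commutes_I (L : (Fin n → ℂ) →L[ℝ] ℂ)
    (h : ∀ j : Fin n, L (Pi.single j Complex.I) = Complex.I * L (Pi.single j 1)) (y : Fin n → ℂ) :
    L (Complex.I • y) = Complex.I * L y := by
  have hy : y = ∑ j : Fin n, ((y j).re • (Pi.single j 1 : Fin n → ℂ)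
      + (y j).im • (Pi.single j Complex.I : Fin n → ℂ)) := by
    ext i
    rw [Finset.sum_apply, Finset.sum_eq_single i]
    · simp only [Pi.add_apply, Pi.smul_apply, Pi.single_eq_same, Complex.real_smul]
      rw [mul_one]
      exact (Complex.re_add_im (y i)).symm
    · intro b _ hb
      simp [Pi.single_eq_of_ne (Ne.symm hb)]
    · intro h; exact absurd (Finset.mem_univ _) h
  have hIy : Complex.I • y = ∑ j : Fin n, ((y j).re • (Pi.single j Complex.I : Fin n → ℂ)
      - (y j).im • (Pi.single j 1 : Fin n → ℂ)) := by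
    ext i
    rw [Finset.sum_apply, Finset.sum_eq_single i]
    · simp only [Pi.sub_apply, Pi.smul_apply, Pi.single_eq_same, Complex.real_smul, smul_eq_mul]
      rw [mul_one]
      nth_rw 1 [← Complex.re_add_im (y i)]
      have := Complex.I_mul_I
      linear_combination ((y i).im : ℂ) * this
    · intro b _ hb
      simp [Pi.single_eq_of_ne (Ne.symm hb)]
    · intro h; exact absurd (Finset.mem_univ _) h
  rw [hIy]
  nth_rw 3 [hy]
  rw [map_sum, map_sum, Finset.mul_sum]
  apply Finset.sum_congr rfl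
  intro j _
  rw [map_sub, map_add, map_smul, map_smul, map_smul, map_smul, h j]
  simp only [Complex.real_smul]
  have := Complex.I_mul_I
  linear_combination (-((y j).im : ℂ) * L (Pi.single j 1)) * this

lemma differentiableAt_complex {H : (Fin n → ℂ) → ℂ} {x : Fin n → ℂ}
    (hd : DifferentiableAt ℝ H x) (h : ∀ j, dzbar j H x = 0) : DifferentiableAt ℂ H x := by
  rw [differentiableAt_iff_restrictScalars ℝ hd]
  have hI := commutes_I (fderiv ℝ H x) (fun j => by
    have := h j
    unfold dzbar at this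
    have h2 : fderiv ℝ H x (Pi.single j 1) + Complex.I * fderiv ℝ H x (Pi.single j Complex.I) = 0 := by
      rcases div_eq_zero_iff.mp this with h3 | h3
      · exact h3
      · norm_num at h3
    have h3 := Complex.I_mul_I
    linear_combination (-Complex.I) * h2 + (fderiv ℝ H x (Pi.single j Complex.I)) * h3)
  refine ⟨{ toFun := fderiv ℝ H x, map_add' := map_add _, map_smul' := ?_, cont := (fderiv ℝ H x).cont }, ?_⟩
  · intro c y
    have hc : c • y = c.re • y + c.im • (Complex.I • y) := by
      ext i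
      simp only [Pi.smul_apply, Pi.add_apply, smul_eq_mul, Complex.real_smul]
      nth_rw 1 [← Complex.re_add_im c]
      ring
    rw [hc, map_add, map_smul, map_smul, hI]
    simp only [RingHom.id_apply, Complex.real_smul, smul_eq_mul]
    nth_rw 3 [← Complex.re_add_im c]
    ring
  · ext y
    rfl

/-- locally integrable extension by zero -/
lemma locInt {Ω : Set (Fin n → ℂ)} (hΩ : IsOpen Ω) {h : (Fin n → ℂ) → ℂ} (hc : ContinuousOn h Ω)
    {M : ℝ} (hM : ∀ x ∈ Ω, ‖h x‖ ≤ M) :
    AEStronglyMeasurable (Ω.indicator h) volume ∧ LocallyIntegrable (Ω.indicator h) volume := by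
  have h1 : AEStronglyMeasurable (Ω.indicator h) volume :=
    (aestronglyMeasurable_indicator_iff hΩ.measurableSet).mpr
      (hc.aestronglyMeasurable hΩ.measurableSet)
  refine ⟨h1, ?_⟩
  refine (locallyIntegrable_const (max M 0)).mono h1 (Filter.Eventually.of_forall (fun x => ?_))
  by_cases hx : x ∈ Ω
  · rw [indicator_of_mem hx]
    exact (hM x hx).trans ((le_max_left _ _).trans (le_abs_self _))
  · rw [indicator_of_notMem hx, norm_zero]
    exact norm_nonneg _

/-- mollification is complex differentiable -/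
lemma mollify_diff {Ω : Set (Fin n → ℂ)} (hΩ : IsOpen Ω) {h : (Fin n → ℂ) → ℂ}
    (hc : ContinuousOn h Ω) {M : ℝ} (hM : ∀ x ∈ Ω, ‖h x‖ ≤ M) (hw : WeakDbar Ω h (fun _ _ => 0))
    (φ : ContDiffBump (0 : Fin n → ℂ)) (x : Fin n → ℂ) (hx : closedBall x φ.rOut ⊆ Ω) :
    DifferentiableAt ℂ (φ.normed volume ⋆[lsmul ℝ ℝ, volume] (Ω.indicator h)) x := by
  obtain ⟨hmeas, hloc⟩ := locInt hΩ hc hM
  set k : (Fin n → ℂ) → ℝ := φ.normed volume with hk
  set g := Ω.indicator h with hg
  have hkc : HasCompactSupport k := φ.hasCompactSupport_normed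
  have hks : ContDiff ℝ ∞ k := φ.contDiff_normed
  have hk1 : ContDiff ℝ 1 k := hks.of_le (by exact_mod_cast le_top)
  have hflip : (g ⋆[(lsmul ℝ ℝ).flip, volume] k) = (k ⋆[lsmul ℝ ℝ, volume] g) := convolution_flip _
  rw [← hflip]
  have hF := hkc.hasFDerivAt_convolution_right (lsmul ℝ ℝ (E := ℂ)).flip hloc hk1 x
  apply differentiableAt_complex hF.differentiableAt
  intro j
  unfold dzbar
  rw [hF.fderiv]
  have hcd : Continuous (fderiv ℝ k) := hk1.continuous_fderiv one_ne_zero
  have hcds : HasCompactSupport (fderiv ℝ k) := hkc.fderiv ℝ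
  rw [convolution_precompR_apply _ hloc hcds hcd, convolution_precompR_apply _ hloc hcds hcd]
  -- the test function
  set ψ : (Fin n → ℂ) → ℂ := fun y => ((k (x - y) : ℝ) : ℂ) with hψ
  have hψs : ContDiff ℝ ∞ ψ := by
    have h1 : ContDiff ℝ ∞ (fun y : Fin n → ℂ => k (x - y)) := hks.comp (contDiff_const.sub contDiff_id)
    exact Complex.ofRealCLM.contDiff.comp h1
  have hsub : tsupport ψ ⊆ closedBall x φ.rOut := by
    apply closure_minimal _ isClosed_closedBall
    intro y hy
    rw [Function.mem_support] at hy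
    have : k (x - y) ≠ 0 := fun h0 => hy (by simp [hψ, h0])
    have h2 : x - y ∈ Function.support k := this
    rw [hk, φ.support_normed_eq, mem_ball, dist_zero_right] at h2
    rw [mem_closedBall, dist_comm, dist_eq_norm]
    exact h2.le
  have hψc : HasCompactSupport ψ := HasCompactSupport.of_support_subset_isCompact
    (isCompact_closedBall x φ.rOut) (subset_tsupport ψ |>.trans hsub)
  have hweak := hw j ψ hψs hψc (hsub.trans hx)
  have hdψ : ∀ y e, fderiv ℝ ψ y e = -((fderiv ℝ k (x - y) e : ℝ) : ℂ) := by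
    intro y e
    have h1 : HasFDerivAt k (fderiv ℝ k (x - y)) (x - y) :=
      (hk1.differentiable one_ne_zero (x - y)).hasFDerivAt
    have h2 : HasFDerivAt (fun y : Fin n → ℂ => x - y) (-(ContinuousLinearMap.id ℝ _)) y :=
      (hasFDerivAt_id y).const_sub x
    have h3 := (Complex.ofRealCLM.hasFDerivAt (x := k (x - y))).comp y (h1.comp y h2)
    have h4 : fderiv ℝ ψ y = _ := h3.fderiv
    rw [h4]
    simp
  simp only [zero_mul, integral_zero, neg_zero] at hweak
  have e1 : ∀ e : Fin n → ℂ, (g ⋆[(lsmul ℝ ℝ (E := ℂ)).flip, volume] fun a => (fderiv ℝ k a) e) x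
      = ∫ y, g y * ((fderiv ℝ k (x - y) e : ℝ) : ℂ) := by
    intro e
    rw [convolution_def]
    congr 1
    ext y
    simp [mul_comm]
  rw [e1, e1]
  have hint : ∀ e : Fin n → ℂ, Integrable (fun y => g y * ((fderiv ℝ k (x - y) e : ℝ) : ℂ)) volume := by
    intro e
    have h1 : ConvolutionExistsAt g (fun a => (fderiv ℝ k a) e) x (lsmul ℝ ℝ (E := ℂ)).flip volume := by
      apply HasCompactSupport.convolutionExists_right
      · exact hcds.comp_left (g := fun L : (Fin n → ℂ) →L[ℝ] ℝ => L e) (by simp)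
      · exact hloc
      · exact hcd.clm_apply continuous_const
    have h2 : Integrable (fun t => (lsmul ℝ ℝ (E := ℂ)).flip (g t) ((fderiv ℝ k (x - t)) e)) volume := h1
    convert h2 using 2
    simp [mul_comm]
  rw [← integral_const_mul, ← integral_add (hint _) ((hint _).const_mul _)]
  rw [div_eq_zero_iff]
  left
  have e2 : ∫ y, (g y * ((fderiv ℝ k (x - y) (Pi.single j 1) : ℝ) : ℂ)
      + Complex.I * (g y * ((fderiv ℝ k (x - y) (Pi.single j Complex.I) : ℝ) : ℂ)))
      = -2 * ∫ y in Ω, h y * dzbar j ψ y := by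
    rw [← integral_indicator hΩ.measurableSet, ← integral_const_mul]
    congr 1
    ext y
    by_cases hy : y ∈ Ω
    · rw [hg, indicator_of_mem hy, indicator_of_mem hy]
      unfold dzbar
      rw [hdψ, hdψ]
      ring
    · rw [hg, indicator_of_notMem hy, indicator_of_notMem hy]
      ring
  rw [e2, hweak, mul_zero]

/-- weakly `∂̄`-closed continuous functions are holomorphic along holomorphic curves -/
theorem weyl {Ω : Set (Fin n → ℂ)} (hΩ : IsOpen Ω) {h : (Fin n → ℂ) → ℂ}
    (hc : ContinuousOn h Ω) {M : ℝ} (hM : ∀ x ∈ Ω, ‖h x‖ ≤ M) (hw : WeakDbar Ω h (fun _ _ => 0))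
    (γ : ℂ → (Fin n → ℂ)) (hγ : Differentiable ℂ γ) (z₀ : ℂ) (hz : γ z₀ ∈ Ω) :
    DifferentiableAt ℂ (fun z => h (γ z)) z₀ := by
  obtain ⟨hmeas, hloc⟩ := locInt hΩ hc hM
  set g := Ω.indicator h with hg
  obtain ⟨r, hr, hrsub⟩ : ∃ r > 0, closedBall (γ z₀) (3 * r) ⊆ Ω := by
    obtain ⟨ε, hε, hsub⟩ := Metric.isOpen_iff.mp hΩ (γ z₀) hz
    refine ⟨ε / 6, by positivity, fun y hy => hsub ?_⟩
    rw [mem_closedBall] at hy
    rw [mem_ball]
    linarith
  -- neighbourhood
  set U : Set ℂ := γ ⁻¹' ball (γ z₀) r with hU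
  have hUo : IsOpen U := isOpen_ball.preimage hγ.continuous
  have hz₀U : z₀ ∈ U := by simp [hU, hr]
  -- mollifiers
  let φ : ℕ → ContDiffBump (0 : Fin n → ℂ) := fun k =>
    ⟨r / (k + 2) / 2, r / (k + 2), by positivity, by
      have : 0 < r / ((k:ℝ) + 2) := by positivity
      linarith⟩
  have hφr : ∀ k, (φ k).rOut = r / (k + 2) := fun k => rfl
  have hφle : ∀ k, (φ k).rOut ≤ r := by
    intro k
    rw [hφr]
    apply div_le_self hr.le
    have : (0:ℝ) ≤ k := Nat.cast_nonneg k
    linarith
  let F : ℕ → ℂ → ℂ := fun k z => ((φ k).normed volume ⋆[lsmul ℝ ℝ, volume] g) (γ z)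
  have hF : ∀ k, DifferentiableOn ℂ (F k) U := by
    intro k z hzU
    have h1 : DifferentiableAt ℂ ((φ k).normed volume ⋆[lsmul ℝ ℝ, volume] g) (γ z) := by
      apply mollify_diff hΩ hc hM hw
      refine Subset.trans ?_ hrsub
      intro y hy
      rw [mem_closedBall] at hy ⊢
      have h2 : dist (γ z) (γ z₀) < r := hzU
      have h3 := dist_triangle y (γ z) (γ z₀)
      have h4 := hφle k
      linarith
    exact (h1.comp z (hγ z)).differentiableWithinAt
  have hunif : TendstoUniformlyOn F (fun z => h (γ z)) Filter.atTop U := by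
    rw [Metric.tendstoUniformlyOn_iff]
    intro ε hε
    have huc : UniformContinuousOn h (closedBall (γ z₀) (3 * r)) :=
      (isCompact_closedBall _ _).uniformContinuousOn_of_continuous (hc.mono hrsub)
    obtain ⟨δ, hδ, hδ2⟩ := Metric.uniformContinuousOn_iff.mp huc (ε / 2) (by positivity)
    have htend : Filter.Tendsto (fun k : ℕ => r / ((k:ℝ) + 2)) Filter.atTop (𝓝 0) :=
      Filter.Tendsto.div_atTop tendsto_const_nhds
        (Filter.tendsto_atTop_add_const_right _ _ tendsto_natCast_atTop_atTop)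
    filter_upwards [htend.eventually_lt_const hδ] with k hk z hzU
    have h2 : dist (γ z) (γ z₀) < r := hzU
    have hmem : ∀ y, dist y (γ z) ≤ r → y ∈ closedBall (γ z₀) (3 * r) := by
      intro y hy
      rw [mem_closedBall]
      have := dist_triangle y (γ z) (γ z₀)
      linarith
    have hgz : ∀ y, dist y (γ z) ≤ r → g y = h y := by
      intro y hy
      rw [hg, indicator_of_mem (hrsub (hmem y hy))]
    have h5 : dist (F k z) (g (γ z)) ≤ ε / 2 := by
      refine ContDiffBump.dist_normed_convolution_le hmeas ?_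
      intro y hy
      rw [mem_ball, hφr] at hy
      have hyr : dist y (γ z) ≤ r := by
        have := hφle k
        rw [hφr] at this
        linarith
      rw [hgz y hyr, hgz (γ z) (by rw [dist_self]; exact hr.le)]
      exact (hδ2 y (hmem y hyr) (γ z) (hmem (γ z) (by rw [dist_self]; exact hr.le)) (hy.trans hk)).le
    rw [dist_comm]
    rw [hgz (γ z) (by rw [dist_self]; exact hr.le)] at h5
    linarith
  have := hunif.tendstoLocallyUniformlyOn.differentiableOn (Filter.Eventually.of_forall hF) hUo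
  exact (this z₀ hz₀U).differentiableAt (hUo.mem_nhds hz₀U)

end Pool.Agent.Lib.MP_7ebee3_an
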