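import Pool.Agent.Lib.MP_7ebee3_an.Est
import Pool.Agent.Lib.MP_7ebee3_an.Weyl
import Pool.Agent.Lib.MP_7ebee3_an.Schwarz

set_option autoImplicit false
open scoped ContDiff Topology
open MeasureTheory Metric Set

namespace Pool.Agent.Lib.MP_7ebee3_an

/-- averaging over `±1` in the first and sixth roots of unity in the second variable -/
noncomputable def Av (om : ℂ) (F : ℂ → ℂ → ℂ → ℂ) (a b z : ℂ) : ℂ :=
  (1/12) * ∑ t ∈ Finset.range 6, om ^ t * (F a (om ^ t * b) z - F (-a) (om ^ t * b) z)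

lemma Av_neg (om : ℂ) (F : ℂ → ℂ → ℂ → ℂ) (a b z : ℂ) : Av om F (-a) b z = - Av om F a b z := by
  unfold Av
  simp only [neg_neg, Finset.sum_range_succ, Finset.sum_range_zero]
  ring

lemma Av_rot {om : ℂ} (hom : om ^ 6 = 1) (F : ℂ → ℂ → ℂ → ℂ) (a b z : ℂ) :
    Av om F a (om * b) z = om ^ 5 * Av om F a b z := by
  unfold Av
  have e : ∀ t : ℕ, om ^ t * (om * b) = om ^ (t + 1) * b := fun t => by ring
  simp only [e, Finset.sum_range_succ, Finset.sum_range_zero]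
  have e6 : om ^ (5 + 1) * b = b := by rw [show 5 + 1 = 6 by norm_num, hom, one_mul]
  rw [e6]
  simp only [pow_zero, one_mul, zero_add]
  have h7 : om ^ 5 * om = 1 := by rw [← pow_succ]; exact hom
  set g1 := F a (om ^ 1 * b) z - F (-a) (om ^ 1 * b) z
  set g2 := F a (om ^ (1 + 1) * b) z - F (-a) (om ^ (1 + 1) * b) z
  set g3 := F a (om ^ (2 + 1) * b) z - F (-a) (om ^ (2 + 1) * b) z
  set g4 := F a (om ^ (3 + 1) * b) z - F (-a) (om ^ (3 + 1) * b) z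
  set g5 := F a (om ^ (4 + 1) * b) z - F (-a) (om ^ (4 + 1) * b) z
  linear_combination (-(1/12) * (g1 + om * g2 + om ^ 2 * g3 + om ^ 3 * g4 + om ^ 4 * g5)) * h7

lemma Av_sub (om c : ℂ) (F G : ℂ → ℂ → ℂ → ℂ) (a b z : ℂ) :
    Av om (fun a b z => F a b z - c * G a b z) a b z = Av om F a b z - c * Av om G a b z := by
  unfold Av
  simp only [Finset.sum_range_succ, Finset.sum_range_zero]
  ring

lemma Av_eq {om : ℂ} (hom : om ^ 6 = 1) (V : ℂ → ℂ → ℂ → ℂ) (hV1 : ∀ a b z, V (-a) b z = - V a b z)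
    (hV2 : ∀ a b z, V a (om * b) z = om ^ 5 * V a b z) (a b z : ℂ) : Av om V a b z = V a b z := by
  have h : ∀ t : ℕ, V a (om ^ t * b) z = om ^ (5 * t) * V a b z := by
    intro t
    induction t with
    | zero => simp
    | succ t ih =>
      rw [show om ^ (t + 1) * b = om * (om ^ t * b) by ring, hV2, ih]
      ring
  unfold Av
  have h2 : ∀ t : ℕ, om ^ t * (V a (om ^ t * b) z - V (-a) (om ^ t * b) z) = 2 * V a b z := by
    intro t
    rw [hV1, h t]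
    have : om ^ t * om ^ (5 * t) = 1 := by
      rw [← pow_add, show t + 5 * t = 6 * t by ring, pow_mul, hom, one_pow]
    linear_combination (2 * V a b z) * this
  rw [Finset.sum_congr rfl (fun t _ => h2 t)]
  simp
  ring

lemma Av_bound {om : ℂ} (hom1 : ‖om‖ = 1) (F : ℂ → ℂ → ℂ → ℂ) (a b z : ℂ) {B : ℝ}
    (h1 : ∀ t : ℕ, ‖F a (om ^ t * b) z‖ ≤ B) (h2 : ∀ t : ℕ, ‖F (-a) (om ^ t * b) z‖ ≤ B) :
    ‖Av om F a b z‖ ≤ B := by
  unfold Av
  rw [norm_mul]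
  have h3 : ‖∑ t ∈ Finset.range 6, om ^ t * (F a (om ^ t * b) z - F (-a) (om ^ t * b) z)‖ ≤
      ∑ t ∈ Finset.range 6, (2 * B) := by
    apply norm_sum_le_of_le
    intro t _
    rw [norm_mul, norm_pow, hom1, one_pow, one_mul]
    refine (norm_sub_le _ _).trans ?_
    have := h1 t; have := h2 t; linarith
  have h4 : ‖(1/12 : ℂ)‖ = 1/12 := by norm_num
  rw [h4]
  simp only [Finset.sum_const, Finset.card_range, nsmul_eq_mul] at h3
  push_cast at h3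
  linarith

/-- points with last coordinate `R` -/
noncomputable def Pt (R : ℝ) (a b z : ℂ) : Fin 4 → ℂ := ![a, b, z, (R : ℂ)]

lemma S_Pt (R : ℝ) (a b z : ℂ) : S (Pt R a b z) =
    R ^ 2 + (‖a‖ ^ 4 * ‖b ^ 6 - z‖ ^ 2) + ‖z‖ ^ 4 + ‖a‖ ^ 24 + ‖b‖ ^ 72 := by
  unfold S
  have e0 : Pt R a b z 0 = a := rfl
  have e1 : Pt R a b z 1 = b := rfl
  have e2 : Pt R a b z 2 = z := rfl
  have e3 : Pt R a b z 3 = (R : ℂ) := rfl
  rw [e0, e1, e2, e3]
  simp only [norm_mul, norm_pow, Complex.norm_real, Real.norm_eq_abs, sq_abs]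
  ring

lemma Pt_diff (R : ℝ) {g1 g2 g3 : ℂ → ℂ} (h1 : Differentiable ℂ g1) (h2 : Differentiable ℂ g2)
    (h3 : Differentiable ℂ g3) : Differentiable ℂ (fun z => Pt R (g1 z) (g2 z) (g3 z)) := by
  rw [differentiable_pi]
  intro i
  fin_cases i
  · exact h1
  · exact h2
  · exact h3
  · exact differentiable_const _

lemma Pt_mem_sym {R : ℝ} {om : ℂ} (hom : om ^ 6 = 1) (hom1 : ‖om‖ = 1) {a b z : ℂ}
    (h : Pt R a b z ∈ Dom) (t : ℕ) : Pt R a (om ^ t * b) z ∈ Dom ∧ Pt R (-a) (om ^ t * b) z ∈ Dom := by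
  have e6 : (om ^ t * b) ^ 6 = b ^ 6 := by
    rw [mul_pow, ← pow_mul, mul_comm t 6, pow_mul, hom, one_pow, one_mul]
  have en : ‖om ^ t * b‖ = ‖b‖ := by rw [norm_mul, norm_pow, hom1, one_pow, one_mul]
  constructor
  · show S _ < 1
    rw [S_Pt, e6, en, ← S_Pt]
    exact h
  · show S _ < 1
    rw [S_Pt, e6, en, norm_neg, ← S_Pt]
    exact h

lemma Av_diff {R : ℝ} {om : ℂ} (hom : om ^ 6 = 1) (hom1 : ‖om‖ = 1) {h : (Fin 4 → ℂ) → ℂ}
    (hh : ∀ (γ : ℂ → (Fin 4 → ℂ)), Differentiable ℂ γ → ∀ z₀, γ z₀ ∈ Dom →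
      DifferentiableAt ℂ (fun z => h (γ z)) z₀)
    {g1 g2 g3 : ℂ → ℂ} (h1 : Differentiable ℂ g1) (h2 : Differentiable ℂ g2)
    (h3 : Differentiable ℂ g3) (z₀ : ℂ) (hz : Pt R (g1 z₀) (g2 z₀) (g3 z₀) ∈ Dom) :
    DifferentiableAt ℂ (fun z => Av om (fun a b z => h (Pt R a b z)) (g1 z) (g2 z) (g3 z)) z₀ := by
  unfold Av
  apply DifferentiableAt.const_mul
  apply DifferentiableAt.fun_sum
  intro t _
  apply DifferentiableAt.const_mul
  have hm := Pt_mem_sym hom hom1 hz t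
  apply DifferentiableAt.sub
  · exact hh (fun z => Pt R (g1 z) (om ^ t * g2 z) (g3 z)) (Pt_diff R h1 (h2.const_mul _) h3) z₀ hm.1
  · exact hh (fun z => Pt R (-g1 z) (om ^ t * g2 z) (g3 z)) (Pt_diff R h1.neg (h2.const_mul _) h3) z₀ hm.2

lemma Dom_sub_Pd : Dom ⊆ Pd := fun _ hx => coord_le_of_S_le (le_of_lt hx)

lemma vf_CB {κ : ℕ} (hκ : 0 < κ) : CB Dom (vf κ) := by
  obtain ⟨b, L, h⟩ := BL_vf hκ
  exact ⟨(vf_contDiff hκ).continuous.continuousOn, b, fun x hx => h.2.2.1 x (Dom_sub_Pd hx)⟩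

lemma ff_cont {κ : ℕ} (hκ : 0 < κ) : Continuous (ff κ) := by
  have h : Continuous (dzbar 1 (vf κ)) := continuous_dzbar (vf_contDiff hκ) 1
  have e : dzbar 1 (vf κ) = ff κ := by
    funext x; rw [dzbar_vf hκ]; simp
  rwa [e] at h

lemma ff_CB {κ : ℕ} (hκ : 0 < κ) : CB Dom (ff κ) :=
  ⟨(ff_cont hκ).continuousOn, _, fun x hx => ff_bound hκ (le_of_lt hx)⟩

/-- the numerical parameters -/
lemma params {κ : ℕ} (hκ : 2 ≤ κ) : ∃ y : ℝ, 0 < y ∧ y ≤ 1/2 ∧ (κ:ℝ) * y = 1 ∧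
    ∃ R : ℝ, 0 < R ∧ R ^ 2 = 1 - y ^ 72 / 2 ∧ 1/2 ≤ R ^ (2 * κ ^ 72) ∧ R < 1 := by
  have hκ0 : (2:ℝ) ≤ κ := by exact_mod_cast hκ
  set y : ℝ := (κ:ℝ)⁻¹ with hy
  have hy0 : 0 < y := by positivity
  have hy1 : y ≤ 1/2 := by
    rw [hy, inv_le_comm₀ (by positivity) (by norm_num)]
    norm_num; exact_mod_cast hκ
  have hky : (κ:ℝ) * y = 1 := mul_inv_cancel₀ (by positivity)
  refine ⟨y, hy0, hy1, hky, Real.sqrt (1 - y ^ 72 / 2), ?_, ?_, ?_, ?_⟩
  · apply Real.sqrt_pos.mpr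
    have : y ^ 72 ≤ 1 := pow_le_one₀ hy0.le (by linarith)
    linarith
  · apply Real.sq_sqrt
    have : y ^ 72 ≤ 1 := pow_le_one₀ hy0.le (by linarith)
    linarith
  · rw [pow_mul, Real.sq_sqrt]
    · have hb := one_add_mul_le_pow (a := -(y ^ 72 / 2)) (by
        have : y ^ 72 ≤ 1 := pow_le_one₀ hy0.le (by linarith)
        linarith) (κ ^ 72)
      have e : ((κ ^ 72 : ℕ) : ℝ) * (-(y ^ 72 / 2)) = -(1/2) := by
        push_cast
        have : (κ:ℝ) ^ 72 * y ^ 72 = 1 := by rw [← mul_pow, hky, one_pow]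
        linear_combination (-(1/2)) * this
      rw [e] at hb
      have e2 : 1 + -(y ^ 72 / 2) = 1 - y ^ 72 / 2 := by ring
      rw [e2] at hb
      linarith
    · have : y ^ 72 ≤ 1 := pow_le_one₀ hy0.le (by linarith)
      linarith
  · rw [Real.sqrt_lt' one_pos]
    have : 0 < y ^ 72 := by positivity
    linarith

lemma memI {y R : ℝ} (hy0 : 0 < y) (hy1 : y ≤ 1/2) (hR : R ^ 2 = 1 - y ^ 72 / 2) {a b : ℂ}
    (ha : ‖a‖ ≤ y ^ 3 / 2) (hb : ‖b‖ ≤ y ^ 3 / 2) : Pt R a b (b ^ 6) ∈ Dom := by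
  show S _ < 1
  rw [S_Pt, hR]
  have e1 : ‖b ^ 6 - b ^ 6‖ = 0 := by simp
  rw [e1, norm_pow, ← pow_mul]
  have k1 : ‖a‖ ^ 24 ≤ (y ^ 3 / 2) ^ 24 := pow_le_pow_left₀ (norm_nonneg _) ha 24
  have k2 : ‖b‖ ^ 24 ≤ (y ^ 3 / 2) ^ 24 := pow_le_pow_left₀ (norm_nonneg _) hb 24
  have hb1 : ‖b‖ ≤ 1 := by
    have : y ^ 3 ≤ 1 := pow_le_one₀ hy0.le (by linarith)
    linarith
  have k3 : ‖b‖ ^ 72 ≤ ‖b‖ ^ 24 := pow_le_pow_of_le_one (norm_nonneg _) hb1 (by norm_num)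
  have e2 : (y ^ 3 / 2) ^ 24 = y ^ 72 / 2 ^ 24 := by rw [div_pow, ← pow_mul]
  rw [e2] at k1 k2
  have hy : 0 < y ^ 72 := by positivity
  have e3 : ‖b‖ ^ (6 * 4) = ‖b‖ ^ 24 := by norm_num
  rw [e3]
  have : y ^ 72 / 2 ^ 24 ≤ y ^ 72 / 8 := by
    apply div_le_div_of_nonneg_left hy.le (by norm_num) (by norm_num)
  nlinarith

lemma memII {y R : ℝ} (hy0 : 0 < y) (hy1 : y ≤ 1/2) (hR : R ^ 2 = 1 - y ^ 72 / 2) {a b : ℂ}
    (ha : ‖a‖ ≤ 4 * y ^ 15) (hb : ‖b‖ ≤ y / 2) : Pt R a b 0 ∈ Dom := by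
  show S _ < 1
  rw [S_Pt, hR, sub_zero, norm_pow, norm_zero]
  have k1 : ‖a‖ ^ 24 ≤ (4 * y ^ 15) ^ 24 := pow_le_pow_left₀ (norm_nonneg _) ha 24
  have k2 : ‖b‖ ^ 72 ≤ (y / 2) ^ 72 := pow_le_pow_left₀ (norm_nonneg _) hb 72
  have k3 : ‖a‖ ^ 4 * (‖b‖ ^ 6) ^ 2 ≤ (4 * y ^ 15) ^ 4 * ((y / 2) ^ 6) ^ 2 := by
    apply mul_le_mul
    · exact pow_le_pow_left₀ (norm_nonneg _) ha 4
    · exact pow_le_pow_left₀ (by positivity) (pow_le_pow_left₀ (norm_nonneg _) hb 6) 2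
    · positivity
    · positivity
  have hy : 0 < y ^ 72 := by positivity
  have e3 : (4 * y ^ 15) ^ 4 * ((y / 2) ^ 6) ^ 2 = y ^ 72 / 16 := by ring
  have e1 : (4 * y ^ 15) ^ 24 = (4 ^ 24 * y ^ 288) * y ^ 72 := by ring
  have e4 : (4:ℝ) ^ 24 * y ^ 288 ≤ 1 / 16 := by
    have h60 : y ^ 60 ≤ (1/2) ^ 60 := pow_le_pow_left₀ hy0.le hy1 60
    have h288 : y ^ 288 ≤ y ^ 60 := pow_le_pow_of_le_one hy0.le (by linarith) (by norm_num)
    calc (4:ℝ) ^ 24 * y ^ 288 ≤ 4 ^ 24 * (1/2) ^ 60 :=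
          mul_le_mul_of_nonneg_left (h288.trans h60) (by norm_num)
      _ ≤ 1 / 16 := by norm_num
  have e5 : (4 * y ^ 15) ^ 24 ≤ y ^ 72 / 16 := by
    rw [e1]
    calc (4 ^ 24 * y ^ 288) * y ^ 72 ≤ (1/16) * y ^ 72 := mul_le_mul_of_nonneg_right e4 hy.le
      _ = y ^ 72 / 16 := by ring
  have e6 : (y / 2) ^ 72 ≤ y ^ 72 / 16 := by
    rw [div_pow]
    apply div_le_div_of_nonneg_left hy.le (by norm_num) (by norm_num)
  rw [e3] at k3
  have e7 : (0:ℝ) ^ 4 = 0 := by norm_num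
  rw [e7]
  linarith

/-- `vf` in the coordinates of `Pt` -/
lemma vf_Pt (κ : ℕ) (R : ℝ) (a b z : ℂ) :
    vf κ (Pt R a b z) = a * (R : ℂ) ^ (2 * κ ^ 72) * (b ^ 6 - z) * W (sg κ) b := rfl

lemma W_rot {om : ℂ} (hom : om ^ 6 = 1) (hom1 : ‖om‖ = 1) (σ : ℝ) (b : ℂ) :
    W σ (om * b) = om ^ 5 * W σ b := by
  unfold W hh
  rw [norm_mul, hom1, one_mul, map_mul]
  have h1 : (starRingEnd ℂ) om * om = 1 := by
    rw [← Complex.normSq_eq_conj_mul_self, Complex.normSq_eq_norm_sq, hom1]; norm_num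
  have h2 : (starRingEnd ℂ) om = om ^ 5 := by
    calc (starRingEnd ℂ) om = (starRingEnd ℂ) om * om ^ 6 := by rw [hom, mul_one]
      _ = ((starRingEnd ℂ) om * om) * om ^ 5 := by ring
      _ = om ^ 5 := by rw [h1, one_mul]
  rw [h2]; ring

lemma near_Dom {R : ℝ} {a0 : ℂ} (h0 : Pt R a0 0 0 ∈ Dom) :
    ∃ ε0 : ℝ, 0 < ε0 ∧ ∀ t z : ℂ, ‖t‖ < ε0 → ‖z‖ < ε0 → Pt R a0 t z ∈ Dom := by
  have hcont : Continuous (fun p : ℂ × ℂ => Pt R a0 p.1 p.2) := by
    apply continuous_pi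
    intro i
    fin_cases i
    · exact continuous_const
    · exact continuous_fst
    · exact continuous_snd
    · exact continuous_const
  have hop : IsOpen ((fun p : ℂ × ℂ => Pt R a0 p.1 p.2) ⁻¹' Dom) := Dom_open.preimage hcont
  have h0' : ((0:ℂ), (0:ℂ)) ∈ ((fun p : ℂ × ℂ => Pt R a0 p.1 p.2) ⁻¹' Dom) := Set.mem_preimage.mpr h0
  obtain ⟨ε0, hε0, hsub⟩ := Metric.isOpen_iff.mp hop ((0:ℂ), (0:ℂ)) h0'
  refine ⟨ε0, hε0, ?_⟩
  intro t z ht hz
  have hmem : (t, z) ∈ ball ((0:ℂ), (0:ℂ)) ε0 := by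
    rw [mem_ball, Prod.dist_eq, max_lt_iff]
    exact ⟨by simpa using ht, by simpa using hz⟩
  have h2 := Set.mem_preimage.mp (hsub hmem)
  have h3 : Pt R a0 (t,z).1 (t,z).2 ∈ Dom := h2
  exact h3

/-- the abstract core of the lower bound -/
theorem core {om : ℂ} (homm : ∀ m : ℕ, 0 < m → m < 6 → om ^ m ≠ 1) (hom : om ^ 6 = 1) (hom1 : ‖om‖ = 1)
    (D : ℂ → ℂ → ℂ → Prop) (Q : ℂ → ℂ → ℂ → ℂ) (M B α α' r : ℝ) (e : ℂ)
    (hα : 0 < α) (hα' : 0 < α') (hαα : α' ≤ α) (hr : 0 < r)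
    (hopen : ∀ g1 g2 g3 : ℂ → ℂ, Differentiable ℂ g1 → Differentiable ℂ g2 → Differentiable ℂ g3 →
      IsOpen {z : ℂ | D (g1 z) (g2 z) (g3 z)})
    (hQd : ∀ g1 g2 g3 : ℂ → ℂ, Differentiable ℂ g1 → Differentiable ℂ g2 → Differentiable ℂ g3 →
      ∀ z₀ : ℂ, D (g1 z₀) (g2 z₀) (g3 z₀) → DifferentiableAt ℂ (fun z => Q (g1 z) (g2 z) (g3 z)) z₀)
    (hneg : ∀ a b z, Q (-a) b z = - Q a b z) (hrot : ∀ a b z, Q a (om * b) z = om ^ 5 * Q a b z)
    (hM0 : 0 ≤ M) (hM : ∀ a b z, D a b z → ‖Q a b z‖ ≤ M)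
    (hI : ∀ a b : ℂ, ‖a‖ ≤ α → ‖b‖ ≤ α → D a b (b ^ 6) ∧ ‖Q a b (b ^ 6)‖ ≤ B)
    (hII : ∀ a b : ℂ, ‖a‖ ≤ α' → ‖b‖ ≤ r → D a b 0)
    (hII2 : ∀ a b : ℂ, ‖a‖ ≤ α' → ‖b‖ = r → ‖Q a b 0 + e * a * b ^ 5‖ ≤ B)
    (hIII : ∃ ε0 : ℝ, 0 < ε0 ∧ ∀ t z : ℂ, ‖t‖ < ε0 → ‖z‖ < ε0 → D (α' : ℂ) t z) :
    ‖e‖ * α' ≤ B * (1 / r) ^ 5 + B * (α' / α) * (1 / α) ^ 5 := by
  have hαc : ‖(α : ℂ)‖ = α := by rw [Complex.norm_real, Real.norm_eq_abs, abs_of_pos hα]
  have hαc' : ‖(α' : ℂ)‖ = α' := by rw [Complex.norm_real, Real.norm_eq_abs, abs_of_pos hα']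
  have hrc : ‖(r : ℂ)‖ = r := by rw [Complex.norm_real, Real.norm_eq_abs, abs_of_pos hr]
  have hA1 : ∀ l1 l2 : ℂ, ‖l1‖ ≤ 1 → ‖l2‖ ≤ 1 →
      ‖Q (l1 * α) (l2 * α) ((l2 * α) ^ 6)‖ ≤ B * ‖l1‖ * ‖l2‖ ^ 5 := by
    have hI' : ∀ l1 l2 : ℂ, ‖l1‖ ≤ 1 → ‖l2‖ ≤ 1 → D (l1 * α) (l2 * α) ((l2 * α) ^ 6) ∧
        ‖Q (l1 * α) (l2 * α) ((l2 * α) ^ 6)‖ ≤ B := by
      intro l1 l2 h1 h2
      apply hI
      · rw [norm_mul, hαc]; exact mul_le_of_le_one_left hα.le h1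
      · rw [norm_mul, hαc]; exact mul_le_of_le_one_left hα.le h2
    apply schw2 om homm hom1 (fun l1 l2 => Q (l1 * α) (l2 * α) ((l2 * α) ^ 6))
    · intro b hb
      refine ⟨_, hopen (fun l1 => l1 * α) (fun _ => b * α) (fun _ => (b * α) ^ 6) (by fun_prop)
        (by fun_prop) (by fun_prop), ?_, ?_⟩
      · intro l1 hl1
        exact (hI' l1 b (mem_closedBall_zero_iff.mp hl1) hb).1
      · intro l1 hl1
        exact (hQd (fun l1 => l1 * α) (fun _ => b * α) (fun _ => (b * α) ^ 6) (by fun_prop)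
          (by fun_prop) (by fun_prop) l1 hl1).differentiableWithinAt
    · intro a ha
      refine ⟨_, hopen (fun _ => a * α) (fun l2 => l2 * α) (fun l2 => (l2 * α) ^ 6) (by fun_prop)
        (by fun_prop) (by fun_prop), ?_, ?_⟩
      · intro l2 hl2
        exact (hI' a l2 ha (mem_closedBall_zero_iff.mp hl2)).1
      · intro l2 hl2
        exact (hQd (fun _ => a * α) (fun l2 => l2 * α) (fun l2 => (l2 * α) ^ 6) (by fun_prop)
          (by fun_prop) (by fun_prop) l2 hl2).differentiableWithinAt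
    · intro a b _ _
      rw [neg_mul]
      exact hneg _ _ _
    · intro a b _ _
      have e6 : (om * b * α) ^ 6 = (b * α) ^ 6 := by
        rw [mul_assoc, mul_pow, hom, one_mul]
      rw [e6, mul_assoc om]
      exact hrot _ _ _
    · intro a b ha hb
      exact (hI' a b ha hb.le).2
  have hA2 : ∀ l1 l2 : ℂ, ‖l1‖ ≤ 1 → ‖l2‖ ≤ 1 →
      ‖Q (l1 * α') (l2 * r) 0 + e * (l1 * α') * (l2 * r) ^ 5‖ ≤ B * ‖l1‖ * ‖l2‖ ^ 5 := by
    have hII' : ∀ l1 l2 : ℂ, ‖l1‖ ≤ 1 → ‖l2‖ ≤ 1 → D (l1 * α') (l2 * r) 0 := by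
      intro l1 l2 h1 h2
      apply hII
      · rw [norm_mul, hαc']; exact mul_le_of_le_one_left hα'.le h1
      · rw [norm_mul, hrc]; exact mul_le_of_le_one_left hr.le h2
    apply schw2 om homm hom1 (fun l1 l2 => Q (l1 * α') (l2 * r) 0 + e * (l1 * α') * (l2 * r) ^ 5)
    · intro b hb
      refine ⟨_, hopen (fun l1 => l1 * α') (fun _ => b * r) (fun _ => 0) (by fun_prop) (by fun_prop)
        (by fun_prop), ?_, ?_⟩
      · intro l1 hl1
        exact hII' l1 b (mem_closedBall_zero_iff.mp hl1) hb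
      · intro l1 hl1
        have := hQd (fun l1 => l1 * α') (fun _ => b * r) (fun _ => 0) (by fun_prop) (by fun_prop)
          (by fun_prop) l1 hl1
        exact (this.add (by fun_prop :
          DifferentiableAt ℂ (fun l1 : ℂ => e * (l1 * α') * (b * r) ^ 5) l1)).differentiableWithinAt
    · intro a ha
      refine ⟨_, hopen (fun _ => a * α') (fun l2 => l2 * r) (fun _ => 0) (by fun_prop) (by fun_prop)
        (by fun_prop), ?_, ?_⟩
      · intro l2 hl2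
        exact hII' a l2 ha (mem_closedBall_zero_iff.mp hl2)
      · intro l2 hl2
        have := hQd (fun _ => a * α') (fun l2 => l2 * r) (fun _ => 0) (by fun_prop) (by fun_prop)
          (by fun_prop) l2 hl2
        exact (this.add (by fun_prop :
          DifferentiableAt ℂ (fun l2 : ℂ => e * (a * α') * (l2 * r) ^ 5) l2)).differentiableWithinAt
    · intro a b _ _
      rw [neg_mul, hneg]
      ring
    · intro a b _ _
      rw [mul_assoc om, hrot, mul_pow]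
      ring
    · intro a b ha hb
      apply hII2
      · rw [norm_mul, hαc']; exact mul_le_of_le_one_left hα'.le ha
      · rw [norm_mul, hrc, hb, one_mul]
  obtain ⟨ε1, hε1, hIII'⟩ := hIII
  set ε0 := min ε1 1 with hε0def
  have hε0 : 0 < ε0 := lt_min hε1 one_pos
  have hε0le : ε0 ≤ 1 := min_le_right _ _
  have hIII : ∀ t z : ℂ, ‖t‖ < ε0 → ‖z‖ < ε0 → D (α' : ℂ) t z := fun t z ht hz =>
    hIII' t z (ht.trans_le (min_le_left _ _)) (hz.trans_le (min_le_left _ _))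
  have hA3 : ∀ t z : ℂ, ‖t‖ < ε0 → ‖z‖ < ε0 →
      ‖Q (α' : ℂ) t z - Q (α' : ℂ) t 0‖ ≤ (2 * M + 1) / ε0 * ‖z‖ := by
    intro t z ht hz
    have hd : DifferentiableOn ℂ (fun z => Q (α' : ℂ) t z) (ball 0 ε0) := by
      intro z hz
      exact (hQd (fun _ => (α' : ℂ)) (fun _ => t) (fun z => z)
        (by fun_prop) (by fun_prop) (by fun_prop) z
        (hIII t z ht (mem_ball_zero_iff.mp hz))).differentiableWithinAt
    have hmaps : MapsTo (fun z => Q (α' : ℂ) t z) (ball 0 ε0)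
        (closedBall (Q (α' : ℂ) t 0) (2 * M + 1)) := by
      intro z hz
      rw [mem_closedBall, dist_eq_norm]
      have b1 := hM _ _ _ (hIII t z ht (mem_ball_zero_iff.mp hz))
      have b2 := hM _ _ _ (hIII t 0 ht (by simpa using hε0))
      have b3 := norm_sub_le (Q (α' : ℂ) t z) (Q (α' : ℂ) t 0)
      linarith
    have := Complex.dist_le_div_mul_dist_of_mapsTo_ball hd hmaps (mem_ball_zero_iff.mpr hz)
    rw [dist_eq_norm, dist_eq_norm, sub_zero] at this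
    exact this
  -- combine
  have hkey : ∀ t : ℝ, 0 < t → t < ε0 → t < α → t < r → ‖e‖ * α' * t ^ 5 ≤
      B * (t / r) ^ 5 + B * (α' / α) * (t / α) ^ 5 + (2 * M + 1) / ε0 * t ^ 6 := by
    intro t ht0 htε htα htr
    have htc : ‖(t : ℂ)‖ = t := by rw [Complex.norm_real, Real.norm_eq_abs, abs_of_pos ht0]
    have q1 : ‖((α' / α : ℝ) : ℂ)‖ = α' / α := by
      rw [Complex.norm_real, Real.norm_eq_abs, abs_of_pos (by positivity)]
    have q2 : ‖((t / α : ℝ) : ℂ)‖ = t / α := by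
      rw [Complex.norm_real, Real.norm_eq_abs, abs_of_pos (by positivity)]
    have q3 : ‖((t / r : ℝ) : ℂ)‖ = t / r := by
      rw [Complex.norm_real, Real.norm_eq_abs, abs_of_pos (by positivity)]
    have r1 := hA1 ((α' / α : ℝ) : ℂ) ((t / α : ℝ) : ℂ) (by
      rw [q1, div_le_one hα]; exact hαα) (by rw [q2, div_le_one hα]; exact htα.le)
    have r2 := hA2 1 ((t / r : ℝ) : ℂ) (by simp) (by rw [q3, div_le_one hr]; exact htr.le)
    have r3 := hA3 (t : ℂ) ((t : ℂ) ^ 6) (by rw [htc]; exact htε) (by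
      rw [norm_pow, htc]
      calc t ^ 6 ≤ t ^ 1 := pow_le_pow_of_le_one ht0.le (by linarith) (by norm_num)
        _ < ε0 := by rw [pow_one]; exact htε)
    have e1 : ((α' / α : ℝ) : ℂ) * (α : ℂ) = (α' : ℂ) := by
      rw [← Complex.ofReal_mul]; congr 1; field_simp
    have e2 : ((t / α : ℝ) : ℂ) * (α : ℂ) = (t : ℂ) := by
      rw [← Complex.ofReal_mul]; congr 1; field_simp
    have e3 : ((t / r : ℝ) : ℂ) * (r : ℂ) = (t : ℂ) := by
      rw [← Complex.ofReal_mul]; congr 1; field_simp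
    rw [e1, e2, q1, q2] at r1
    rw [e3, one_mul, q3, norm_one, mul_one] at r2
    rw [norm_pow, htc] at r3
    have e4 : ‖e‖ * α' * t ^ 5 = ‖e * (α' : ℂ) * (t : ℂ) ^ 5‖ := by
      rw [norm_mul, norm_mul, norm_pow, hαc', htc]
    rw [e4]
    have e5 : e * (α' : ℂ) * (t : ℂ) ^ 5 = (Q (α' : ℂ) (t : ℂ) 0 + e * (α' : ℂ) * (t : ℂ) ^ 5)
        - Q (α' : ℂ) (t : ℂ) ((t : ℂ) ^ 6)
        + (Q (α' : ℂ) (t : ℂ) ((t : ℂ) ^ 6) - Q (α' : ℂ) (t : ℂ) 0) := by ring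
    rw [e5]
    exact (norm_add_le _ _).trans (add_le_add ((norm_sub_le _ _).trans (add_le_add r2 r1)) r3)
  apply le_of_forall_pos_le_add
  intro ε hε
  set C0 : ℝ := (2 * M + 1) / ε0 with hC0
  have hC00 : 0 < C0 := by positivity
  set t : ℝ := min (min (ε0 / 2) (min (α / 2) (r / 2))) (ε / C0) with ht
  have ht0 : 0 < t := by positivity
  have ht1 : t < ε0 := by
    have : t ≤ ε0 / 2 := (min_le_left _ _).trans (min_le_left _ _)
    linarith
  have ht2 : t < α := by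
    have : t ≤ α / 2 := (min_le_left _ _).trans ((min_le_right _ _).trans (min_le_left _ _))
    linarith
  have ht2' : t < r := by
    have : t ≤ r / 2 := (min_le_left _ _).trans ((min_le_right _ _).trans (min_le_right _ _))
    linarith
  have ht3 : C0 * t ≤ ε := by
    have : t ≤ ε / C0 := min_le_right _ _
    calc C0 * t ≤ C0 * (ε / C0) := mul_le_mul_of_nonneg_left this hC00.le
      _ = ε := by field_simp
  have hk := hkey t ht0 ht1 ht2 ht2'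
  have ht5 : 0 < t ^ 5 := by positivity
  have f1 : ∀ w : ℝ, (t / w) ^ 5 = t ^ 5 * (1 / w) ^ 5 := by intro w; rw [← mul_pow]; congr 1; ring
  rw [f1, f1] at hk
  have f2 : t ^ 5 * (‖e‖ * α') ≤
      t ^ 5 * (B * (1 / r) ^ 5 + B * (α' / α) * (1 / α) ^ 5 + C0 * t) := by
    calc t ^ 5 * (‖e‖ * α') = ‖e‖ * α' * t ^ 5 := by ring
      _ ≤ _ := hk
      _ = _ := by ring
  have f3 := le_of_mul_le_mul_left f2 ht5
  linarith

theorem lower {κ : ℕ} (hκ : 2 ≤ κ) (c : ℂ) {u : (Fin 4 → ℂ) → ℂ} (hu : ContinuousOn u Dom) {B : ℝ}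
    (hB : ∀ x ∈ Dom, ‖u x‖ ≤ B)
    (hw : WeakDbar Dom u (fun j x => if j = 1 then c * ff κ x else 0)) :
    ‖c‖ ≤ 96 * (κ:ℝ) ^ 20 * B := by
  have hκ0 : 0 < κ := by omega
  have hB0 : 0 ≤ B := (norm_nonneg _).trans (hB 0 zero_mem_Dom)
  -- the holomorphic difference
  set h : (Fin 4 → ℂ) → ℂ := fun x => u x - c * vf κ x with hh_def
  have huCB : CB Dom u := ⟨hu, B, hB⟩
  have hvCB := vf_CB hκ0
  have hweak : WeakDbar Dom h (fun _ _ => 0) := by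
    have key := weak_sum Dom_open (Finset.univ : Finset Bool) (fun t => if t then 1 else -c)
      (fun t => if t then u else vf κ)
      (fun t j x => if t then (if j = 1 then c * ff κ x else 0) else (if j = 1 then ff κ x else 0))
      (by
        intro t _
        cases t
        · exact hvCB
        · exact huCB)
      (by
        intro t _ j
        cases t
        · by_cases hj : j = 1
          · simpa [hj] using ff_CB hκ0
          · simp only [hj, if_false]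
            exact ⟨by fun_prop, 0, fun x _ => by simp⟩
        · by_cases hj : j = 1
          · simp only [hj, if_true]
            obtain ⟨h1, M, hM⟩ := ff_CB hκ0
            refine ⟨continuousOn_const.mul h1, ‖c‖ * M, fun x hx => ?_⟩
            rw [norm_mul]
            exact mul_le_mul_of_nonneg_left (hM x hx) (norm_nonneg _)
          · simp only [hj, if_false]
            exact ⟨by fun_prop, 0, fun x _ => by simp⟩)
      (by
        intro t _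
        cases t
        · exact vf_weak hκ0
        · exact hw)
    have e1 : (fun x => ∑ t ∈ (Finset.univ : Finset Bool), (if t then (1:ℂ) else -c) *
        (if t then u else vf κ) x) = h := by
      funext x; simp [hh_def]; ring
    have e2 : (fun (j : Fin 4) (x : Fin 4 → ℂ) => ∑ t ∈ (Finset.univ : Finset Bool), (if t then (1:ℂ) else -c) *
        (if t then (if j = 1 then c * ff κ x else 0) else (if j = 1 then ff κ x else 0)))
        = (fun _ _ => (0:ℂ)) := by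
      funext j x; simp
      by_cases hj : j = 1 <;> simp [hj]
    rw [e1, e2] at key
    exact key
  obtain ⟨hvc, Mv, hMv⟩ := hvCB
  have hhc : ContinuousOn h Dom := hu.sub (continuousOn_const.mul hvc)
  set M : ℝ := B + ‖c‖ * Mv with hM
  have hhM : ∀ x ∈ Dom, ‖h x‖ ≤ M := by
    intro x hx
    refine (norm_sub_le _ _).trans (add_le_add (hB x hx) ?_)
    rw [norm_mul]
    exact mul_le_mul_of_nonneg_left (hMv x hx) (norm_nonneg _)
  have hM0 : 0 ≤ M := (norm_nonneg _).trans (hhM 0 zero_mem_Dom)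
  have hcurve : ∀ (γ : ℂ → (Fin 4 → ℂ)), Differentiable ℂ γ → ∀ z₀, γ z₀ ∈ Dom →
      DifferentiableAt ℂ (fun z => h (γ z)) z₀ :=
    fun γ hγ z₀ hz => weyl Dom_open hhc hhM hweak γ hγ z₀ hz
  -- root of unity
  obtain ⟨om, homp⟩ : ∃ om : ℂ, IsPrimitiveRoot om 6 := ⟨_, Complex.isPrimitiveRoot_exp 6 (by norm_num)⟩
  have hom : om ^ 6 = 1 := homp.pow_eq_one
  have hom1 : ‖om‖ = 1 := Complex.norm_eq_one_of_pow_eq_one hom (by norm_num)
  have homm : ∀ m : ℕ, 0 < m → m < 6 → om ^ m ≠ 1 := fun m h1 h2 => homp.pow_ne_one_of_pos_of_lt h1.ne' h2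
  -- parameters
  obtain ⟨y, hy0, hy1, hky, R, hR0, hR2, hRn, hR1⟩ := params hκ
  generalize hm : 2 * κ ^ 72 = m at hRn
  have hσ := sg_pos hκ0
  have hσy : sg κ = y ^ 6 := by
    unfold sg
    have : (κ:ℝ) ^ 6 * y ^ 6 = 1 := by rw [← mul_pow, hky, one_pow]
    exact inv_eq_of_mul_eq_one_right this
  set U : ℂ → ℂ → ℂ → ℂ := fun a b z => u (Pt R a b z) with hU
  set V : ℂ → ℂ → ℂ → ℂ := fun a b z => vf κ (Pt R a b z) with hV
  set Q : ℂ → ℂ → ℂ → ℂ := Av om (fun a b z => h (Pt R a b z)) with hQ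
  have hVf : ∀ a b z, V a b z = a * (R : ℂ) ^ m * (b ^ 6 - z) * W (sg κ) b := by
    intro a b z
    rw [← hm]
    exact vf_Pt κ R a b z
  have hV1 : ∀ a b z, V (-a) b z = - V a b z := by
    intro a b z
    rw [hVf, hVf]; ring
  have hV2 : ∀ a b z, V a (om * b) z = om ^ 5 * V a b z := by
    intro a b z
    rw [hVf, hVf, W_rot hom hom1, mul_pow, hom]; ring
  have hQeq : ∀ a b z, Q a b z = Av om U a b z - c * V a b z := by
    intro a b z
    rw [hQ, ← Av_eq hom V hV1 hV2]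
    exact Av_sub om c U V a b z
  have hUB : ∀ a b z, Pt R a b z ∈ Dom → ‖Av om U a b z‖ ≤ B := by
    intro a b z hm
    exact Av_bound hom1 U a b z (fun t => hB _ (Pt_mem_sym hom hom1 hm t).1)
      (fun t => hB _ (Pt_mem_sym hom hom1 hm t).2)
  have hy3 : y ^ 3 ≤ y := by
    calc y ^ 3 ≤ y ^ 1 := pow_le_pow_of_le_one hy0.le (by linarith) (by norm_num)
      _ = y := pow_one y
  have hcore := core homm hom hom1 (fun a b z => Pt R a b z ∈ Dom) Q M B (y ^ 3 / 2) (4 * y ^ 15) (y / 2)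
    (c * (R : ℂ) ^ m * (((y / 2) ^ 2 * (sg κ + (y / 2) ^ 2)⁻¹ : ℝ) : ℂ))
    (by positivity) (by positivity)
    (by
      have : y ^ 12 ≤ (1/2) ^ 12 := pow_le_pow_left₀ hy0.le hy1 12
      have h3 : 0 < y ^ 3 := by positivity
      have : 4 * y ^ 15 = (8 * y ^ 12) * (y ^ 3 / 2) := by ring
      rw [this]
      apply mul_le_of_le_one_left (by positivity)
      calc 8 * y ^ 12 ≤ 8 * (1/2) ^ 12 := by linarith
        _ ≤ 1 := by norm_num)
    (by positivity)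
    (fun g1 g2 g3 h1 h2 h3 => Dom_open.preimage (Pt_diff R h1 h2 h3).continuous)
    (fun g1 g2 g3 h1 h2 h3 z₀ hz => Av_diff hom hom1 hcurve h1 h2 h3 z₀ hz)
    (fun a b z => Av_neg om _ _ _ _) (fun a b z => Av_rot hom _ _ _ _) hM0
    (fun a b z hm => Av_bound hom1 _ a b z (fun t => hhM _ (Pt_mem_sym hom hom1 hm t).1)
      (fun t => hhM _ (Pt_mem_sym hom hom1 hm t).2))
    (by
      intro a b ha hb
      have hm := memI hy0 hy1 hR2 ha hb
      refine ⟨hm, ?_⟩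
      have hV0 : V a b (b ^ 6) = 0 := by rw [hVf]; ring
      rw [hQeq, hV0, mul_zero, sub_zero]
      exact hUB _ _ _ hm)
    (fun a b ha hb => memII hy0 hy1 hR2 ha hb)
    (by
      intro a b ha hb
      have hm := memII hy0 hy1 hR2 ha hb.le
      have hbb : b * (starRingEnd ℂ) b = (((y / 2) ^ 2 : ℝ) : ℂ) := by
        rw [mul_comm, ← Complex.normSq_eq_conj_mul_self, Complex.normSq_eq_norm_sq, hb]
      have hWb : W (sg κ) b = (((sg κ + (y / 2) ^ 2)⁻¹ : ℝ) : ℂ) * (starRingEnd ℂ) b := by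
        unfold W hh; rw [hb]
      have e : Q a b 0 + c * (R : ℂ) ^ m * (((y / 2) ^ 2 * (sg κ + (y / 2) ^ 2)⁻¹ : ℝ) : ℂ) * a * b ^ 5
          = Av om U a b 0 := by
        rw [hQeq, hVf, hWb]
        rw [Complex.ofReal_mul, ← hbb]
        ring
      rw [e]
      exact hUB _ _ _ hm)
    (by
      have h0 := memII hy0 hy1 hR2 (a := ((4 * y ^ 15 : ℝ) : ℂ)) (b := 0)
        (by rw [Complex.norm_real, Real.norm_eq_abs, abs_of_pos (by positivity)])
        (by rw [norm_zero]; positivity)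
      exact near_Dom h0)
  -- numerics
  have g1 : (1/2 : ℝ) ≤ (y / 2) ^ 2 * (sg κ + (y / 2) ^ 2)⁻¹ := by
    rw [hσy, ← div_eq_mul_inv, div_le_div_iff₀ (by norm_num) (by positivity)]
    have : y ^ 6 ≤ (y / 2) ^ 2 := by
      have : y ^ 4 ≤ (1/2) ^ 4 := pow_le_pow_left₀ hy0.le hy1 4
      calc y ^ 6 = y ^ 4 * y ^ 2 := by ring
        _ ≤ (1/2) ^ 4 * y ^ 2 := mul_le_mul_of_nonneg_right this (by positivity)
        _ ≤ (y / 2) ^ 2 := by nlinarith [sq_nonneg y]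
    linarith
  have g2 : ‖c‖ * (1/4) ≤ ‖c * (R : ℂ) ^ m * (((y / 2) ^ 2 * (sg κ + (y / 2) ^ 2)⁻¹ : ℝ) : ℂ)‖ := by
    rw [norm_mul, norm_mul, norm_pow, Complex.norm_real, Complex.norm_real, Real.norm_eq_abs,
      Real.norm_eq_abs, abs_of_pos hR0, abs_of_pos (by positivity)]
    have : (1/4 : ℝ) = (1/2) * (1/2) := by norm_num
    rw [this, mul_assoc]
    apply mul_le_mul_of_nonneg_left _ (norm_nonneg _)
    exact mul_le_mul hRn g1 (by norm_num) (by positivity)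
  have g3 : ‖c‖ * y ^ 15 ≤ B * (1 / (y / 2)) ^ 5 + B * (4 * y ^ 15 / (y ^ 3 / 2)) * (1 / (y ^ 3 / 2)) ^ 5 := by
    refine le_trans ?_ hcore
    have := mul_le_mul_of_nonneg_right g2 (show (0:ℝ) ≤ 4 * y ^ 15 by positivity)
    linarith
  have g4 : ‖c‖ * y ^ 20 ≤ 96 * B := by
    have e : (B * (1 / (y / 2)) ^ 5 + B * (4 * y ^ 15 / (y ^ 3 / 2)) * (1 / (y ^ 3 / 2)) ^ 5) * y ^ 5
        = B * (32 + 256 * y ^ 2) := by
      field_simp
      ring
    have h5 := mul_le_mul_of_nonneg_right g3 (show (0:ℝ) ≤ y ^ 5 by positivity)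
    rw [e] at h5
    have e2 : ‖c‖ * y ^ 15 * y ^ 5 = ‖c‖ * y ^ 20 := by ring
    rw [e2] at h5
    have h6 : y ^ 2 ≤ 1/4 := by nlinarith
    have h7 : B * (32 + 256 * y ^ 2) ≤ B * 96 := mul_le_mul_of_nonneg_left (by linarith) hB0
    linarith
  have hy20 : (κ:ℝ) ^ 20 * y ^ 20 = 1 := by rw [← mul_pow, hky, one_pow]
  have hκ20 : (0:ℝ) < (κ:ℝ) ^ 20 := by
    have : (0:ℝ) < κ := by exact_mod_cast hκ0
    positivity
  calc ‖c‖ = (κ:ℝ) ^ 20 * (‖c‖ * y ^ 20) := by linear_combination (-‖c‖) * hy20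
    _ ≤ (κ:ℝ) ^ 20 * (96 * B) := mul_le_mul_of_nonneg_left g4 hκ20.le
    _ = 96 * (κ:ℝ) ^ 20 * B := by ring

end Pool.Agent.Lib.MP_7ebee3_an
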