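import Pool.Agent.Lib.MP_7ebee3_an.Defs

set_option autoImplicit false
open scoped ContDiff Topology
open MeasureTheory Metric Set

namespace Pool.Agent.Lib.MP_7ebee3_an

variable {n : ℕ}

lemma dzbar_comp_mul (a : Fin n → ℂ) {φ : (Fin n → ℂ) → ℂ} {y : Fin n → ℂ}
    (hd : DifferentiableAt ℝ φ (a * y)) (j : Fin n) :
    dzbar j (fun y => φ (a * y)) y = (starRingEnd ℂ) (a j) * dzbar j φ (a * y) := by
  let A : (Fin n → ℂ) →L[ℝ] (Fin n → ℂ) := (ContinuousLinearMap.mul ℝ (Fin n → ℂ)) a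
  have hA : ∀ y, A y = a * y := fun y => rfl
  have h1 : HasFDerivAt (fun y => a * y) A y := A.hasFDerivAt
  have h2 := hd.hasFDerivAt.comp y h1
  have h3 : fderiv ℝ (fun y => φ (a * y)) y = (fderiv ℝ φ (a * y)).comp A := h2.fderiv
  unfold dzbar
  rw [h3]
  simp only [ContinuousLinearMap.comp_apply, hA]
  set L := fderiv ℝ φ (a * y) with hL
  have e1 : a * Pi.single j (1 : ℂ) = (a j).re • (Pi.single j 1 : Fin n → ℂ)
      + (a j).im • (Pi.single j Complex.I : Fin n → ℂ) := by
    ext i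
    by_cases hi : i = j
    · subst hi
      simp only [Pi.mul_apply, Pi.single_eq_same, Pi.add_apply, Pi.smul_apply, Complex.real_smul, mul_one]
      exact (Complex.re_add_im _).symm
    · simp [Pi.single_eq_of_ne hi]
  have e2 : a * Pi.single j Complex.I = (a j).re • (Pi.single j Complex.I : Fin n → ℂ)
      - (a j).im • (Pi.single j 1 : Fin n → ℂ) := by
    ext i
    by_cases hi : i = j
    · subst hi
      simp only [Pi.mul_apply, Pi.single_eq_same, Pi.sub_apply, Pi.smul_apply, Complex.real_smul, mul_one]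
      nth_rw 1 [← Complex.re_add_im (a i)]
      linear_combination ((a i).im : ℂ) * Complex.I_mul_I
    · simp [Pi.single_eq_of_ne hi]
  rw [e1, e2, map_add, map_sub, map_smul, map_smul, map_smul, map_smul]
  simp only [Complex.real_smul]
  have e3 : (starRingEnd ℂ) (a j) = ((a j).re : ℂ) - (a j).im * Complex.I := by
    apply Complex.ext <;> simp
  rw [e3]
  linear_combination (((a j).im : ℂ) * L (Pi.single j Complex.I) / 2) * Complex.I_mul_I

/-- multiplication by unimodular numbers in each coordinate preserves Lebesgue measure -/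
lemma mp_mul (g : Fin n → ℂ) (hg : ∀ i, ‖g i‖ = 1) :
    MeasurePreserving (fun x : Fin n → ℂ => g * x) volume volume := by
  have h1 : ∀ i, MeasurePreserving (fun z : ℂ => g i * z) volume volume := by
    intro i
    have h2 := (rotation (⟨g i, by simp [Submonoid.unitSphere, hg i]⟩ : Circle)).measurePreserving
    exact h2
  exact volume_preserving_pi h1

lemma me_mul (g : Fin n → ℂ) (hg : ∀ i, ‖g i‖ = 1) :
    MeasurableEmbedding (fun x : Fin n → ℂ => g * x) := by
  have hinv : ∀ i, g i * (g i)⁻¹ = 1 := fun i => mul_inv_cancel₀ (by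
    intro h; have := hg i; rw [h, norm_zero] at this; exact zero_ne_one this)
  let e : (Fin n → ℂ) ≃ₜ (Fin n → ℂ) :=
    { toFun := fun x => g * x
      invFun := fun x => g⁻¹ * x
      left_inv := fun x => by
        ext i; simp only [Pi.mul_apply, Pi.inv_apply]; rw [← mul_assoc, mul_comm (g i)⁻¹, hinv, one_mul]
      right_inv := fun x => by
        ext i; simp only [Pi.mul_apply, Pi.inv_apply]; rw [← mul_assoc, hinv, one_mul]
      continuous_toFun := continuous_const.mul continuous_id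
      continuous_invFun := continuous_const.mul continuous_id }
  exact e.measurableEmbedding

lemma weak_rot {Ω : Set (Fin n → ℂ)} (g : Fin n → ℂ) (hg : ∀ i, ‖g i‖ = 1)
    (hinv : ∀ x, g * x ∈ Ω ↔ x ∈ Ω) {u : (Fin n → ℂ) → ℂ} {f : Fin n → (Fin n → ℂ) → ℂ}
    (hw : WeakDbar Ω u f) :
    WeakDbar Ω (fun x => u (g * x)) (fun j x => (starRingEnd ℂ) (g j) * f j (g * x)) := by
  intro j φ hφ hφc hφs
  have hgg : ∀ i, (starRingEnd ℂ) (g i) * g i = 1 := by
    intro i
    rw [← Complex.normSq_eq_conj_mul_self, Complex.normSq_eq_norm_sq, hg i]; norm_num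
  set gb : Fin n → ℂ := fun i => (starRingEnd ℂ) (g i) with hgb
  have hgbg : ∀ x : Fin n → ℂ, gb * (g * x) = x := by
    intro x; ext i
    simp only [Pi.mul_apply, hgb]
    rw [← mul_assoc, hgg, one_mul]
  have hgbg' : ∀ x : Fin n → ℂ, g * (gb * x) = x := by
    intro x; ext i
    simp only [Pi.mul_apply, hgb]
    rw [← mul_assoc, mul_comm (g i), hgg, one_mul]
  set ψ : (Fin n → ℂ) → ℂ := fun y => φ (gb * y) with hψ
  have hψs : ContDiff ℝ ∞ ψ := by
    have h1 : ContDiff ℝ ∞ (fun y : Fin n → ℂ => gb * y) :=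
      ((ContinuousLinearMap.mul ℝ (Fin n → ℂ)) gb).contDiff
    exact hφ.comp h1
  let e : (Fin n → ℂ) ≃ₜ (Fin n → ℂ) :=
    { toFun := fun x => gb * x
      invFun := fun x => g * x
      left_inv := fun x => hgbg' x
      right_inv := fun x => hgbg x
      continuous_toFun := continuous_const.mul continuous_id
      continuous_invFun := continuous_const.mul continuous_id }
  have hψc : HasCompactSupport ψ := hφc.comp_homeomorph e
  have hts : tsupport ψ = e ⁻¹' tsupport φ := tsupport_comp_eq_preimage φ e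
  have hψsub : tsupport ψ ⊆ Ω := by
    rw [hts]
    intro y hy
    have h1 : gb * y ∈ Ω := hφs hy
    have h2 := (hinv (gb * y)).mpr h1
    rwa [hgbg'] at h2
  have key := hw j ψ hψs hψc hψsub
  have hpre : (fun x : Fin n → ℂ => g * x) ⁻¹' Ω = Ω := by
    ext x; exact hinv x
  have i1 := (mp_mul g hg).setIntegral_preimage_emb (me_mul g hg) (fun y => u y * dzbar j ψ y) Ω
  have i2 := (mp_mul g hg).setIntegral_preimage_emb (me_mul g hg) (fun y => f j y * ψ y) Ω
  rw [hpre] at i1 i2
  rw [← i1, ← i2] at key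
  have hdz : ∀ x, dzbar j φ x = (starRingEnd ℂ) (g j) * dzbar j ψ (g * x) := by
    intro x
    have hd : DifferentiableAt ℝ φ (gb * (g * x)) :=
      (hφ.differentiable (by simp)) _
    have h1 := dzbar_comp_mul gb (y := g * x) hd j
    rw [← hψ] at h1
    rw [h1, hgbg]
    simp only [hgb, Complex.conj_conj]
    rw [← mul_assoc, hgg, one_mul]
  have hψx : ∀ x, ψ (g * x) = φ x := fun x => by rw [hψ]; simp only [hgbg]
  calc ∫ x in Ω, u (g * x) * dzbar j φ x
      = ∫ x in Ω, (starRingEnd ℂ) (g j) * (u (g * x) * dzbar j ψ (g * x)) := by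
        congr 1; ext x; rw [hdz x]; ring
    _ = (starRingEnd ℂ) (g j) * ∫ x in Ω, (u (g * x) * dzbar j ψ (g * x)) := integral_const_mul _ _
    _ = (starRingEnd ℂ) (g j) * (- ∫ x in Ω, (f j (g * x) * ψ (g * x))) := by rw [key]
    _ = - ((starRingEnd ℂ) (g j) * ∫ x in Ω, (f j (g * x) * ψ (g * x))) := by ring
    _ = - ∫ x in Ω, (starRingEnd ℂ) (g j) * (f j (g * x) * ψ (g * x)) := by rw [integral_const_mul]
    _ = - ∫ x in Ω, (starRingEnd ℂ) (g j) * f j (g * x) * φ x := by
        congr 2; ext x; rw [hψx]; ring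

/-- continuous and bounded on `Ω` -/
def CB (Ω : Set (Fin n → ℂ)) (u : (Fin n → ℂ) → ℂ) : Prop :=
  ContinuousOn u Ω ∧ ∃ M : ℝ, ∀ x ∈ Ω, ‖u x‖ ≤ M

lemma cb_integrable {Ω : Set (Fin n → ℂ)} (hΩ : IsOpen Ω) {u ψ : (Fin n → ℂ) → ℂ} (hu : CB Ω u)
    (hψ : Continuous ψ) (hψc : HasCompactSupport ψ) :
    IntegrableOn (fun x => u x * ψ x) Ω volume := by
  obtain ⟨hc, M, hM⟩ := hu
  have h1 : IntegrableOn ψ Ω volume := (hψ.integrable_of_hasCompactSupport hψc).integrableOn
  apply Integrable.bdd_mul (c := M) h1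
  · exact hc.aestronglyMeasurable hΩ.measurableSet
  · rw [ae_restrict_iff' hΩ.measurableSet]
    exact Filter.Eventually.of_forall hM

lemma continuous_dzbar {φ : (Fin n → ℂ) → ℂ} (hφ : ContDiff ℝ ∞ φ) (j : Fin n) :
    Continuous (dzbar j φ) := by
  have h1 : Continuous (fderiv ℝ φ) := hφ.continuous_fderiv (by simp)
  unfold dzbar
  exact ((h1.clm_apply continuous_const).add
    (continuous_const.mul (h1.clm_apply continuous_const))).div_const _

lemma hcs_dzbar {φ : (Fin n → ℂ) → ℂ} (hφc : HasCompactSupport φ) (j : Fin n) :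
    HasCompactSupport (dzbar j φ) := by
  have h1 : HasCompactSupport (fderiv ℝ φ) := hφc.fderiv ℝ
  exact h1.comp_left (g := fun L : (Fin n → ℂ) →L[ℝ] ℂ =>
    (L (Pi.single j 1) + Complex.I * L (Pi.single j Complex.I)) / 2) (by simp)

lemma weak_sum {Ω : Set (Fin n → ℂ)} (hΩ : IsOpen Ω) {ι : Type*} (s : Finset ι) (a : ι → ℂ)
    (u : ι → (Fin n → ℂ) → ℂ) (f : ι → Fin n → (Fin n → ℂ) → ℂ)
    (hu : ∀ t ∈ s, CB Ω (u t)) (hf : ∀ t ∈ s, ∀ j, CB Ω (f t j)) (hw : ∀ t ∈ s, WeakDbar Ω (u t) (f t)) :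
    WeakDbar Ω (fun x => ∑ t ∈ s, a t * u t x) (fun j x => ∑ t ∈ s, a t * f t j x) := by
  intro j φ hφ hφc hφs
  have e1 : ∀ x, (∑ t ∈ s, a t * u t x) * dzbar j φ x = ∑ t ∈ s, a t * (u t x * dzbar j φ x) := by
    intro x; rw [Finset.sum_mul]; exact Finset.sum_congr rfl (fun t _ => by ring)
  have e2 : ∀ x, (∑ t ∈ s, a t * f t j x) * φ x = ∑ t ∈ s, a t * (f t j x * φ x) := by
    intro x; rw [Finset.sum_mul]; exact Finset.sum_congr rfl (fun t _ => by ring)
  simp_rw [e1, e2]
  rw [integral_finsetSum, integral_finsetSum, ← Finset.sum_neg_distrib]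
  · apply Finset.sum_congr rfl
    intro t ht
    rw [integral_const_mul, integral_const_mul, hw t ht j φ hφ hφc hφs]
    ring
  · intro t ht
    exact (cb_integrable hΩ (hf t ht j) hφ.continuous hφc).const_mul _
  · intro t ht
    exact (cb_integrable hΩ (hu t ht) (continuous_dzbar hφ j) (hcs_dzbar hφc j)).const_mul _

end Pool.Agent.Lib.MP_7ebee3_an
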